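import Pool.Agent.Lib.MP_7ed9c3_nt.Pz.SpecH

/-!
# MP_7ed9c3_nt, project PZ, module CfB: coefficients of products of 1 - a X^f and of the inverse
-/

set_option autoImplicit false

namespace MP7ed9c3.Pz

open NumberField IsDedekindDomain MP7ed9c3 MP7ed9c3.Tw MP7ed9c3.Tz

/-- the coefficients of `(1 - a X^f) P` -/
private theorem CfB_coeff (a : ℂ) (f i : ℕ) (P : PowerSeries ℂ) :
    PowerSeries.coeff i ((1 - PowerSeries.C a * PowerSeries.X ^ f) * P) =
      PowerSeries.coeff i P - a * (if f ≤ i then PowerSeries.coeff (i - f) P else 0) := by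
  have h1 : (1 - PowerSeries.C a * PowerSeries.X ^ f) * P =
      P - PowerSeries.C a * (P * PowerSeries.X ^ f) := by ring
  rw [h1, map_sub, PowerSeries.coeff_C_mul, PowerSeries.coeff_mul_X_pow']

/-- the constant coefficient of a product -/
private theorem CfB_const {J : Type} (s : Finset J) (α : J → ℂ) (f : J → ℕ)
    (h : ∀ j ∈ s, 1 ≤ f j) :
    PowerSeries.constantCoeff (∏ j ∈ s, (1 - PowerSeries.C (α j) * PowerSeries.X ^ f j)) = 1 := by
  rw [map_prod]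
  refine Finset.prod_eq_one fun j hj => ?_
  have h1 : f j ≠ 0 := by
    have := h j hj
    omega
  simp [h1]

private theorem CfB_pow {a r : ℝ} {f i d : ℕ} (hr : 0 ≤ r) (ha : a ≤ r ^ f) (hfi : f ≤ i)
    {y : ℝ} (hy0 : 0 ≤ y) (hy : y ≤ (((i - f : ℕ) : ℝ) + 1) ^ d * r ^ (i - f)) :
    a * y ≤ (((i - f : ℕ) : ℝ) + 1) ^ d * r ^ i := by
  calc a * y ≤ r ^ f * ((((i - f : ℕ) : ℝ) + 1) ^ d * r ^ (i - f)) :=
        mul_le_mul ha hy hy0 (pow_nonneg hr f)
    _ = (((i - f : ℕ) : ℝ) + 1) ^ d * r ^ i := by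
        rw [mul_left_comm, ← pow_add, Nat.add_sub_cancel' hfi]

/-- the first claim, one step -/
private theorem CfB_one (r : ℝ) (hr : 0 ≤ r) (a : ℂ) (f d : ℕ) (hf : 1 ≤ f) (ha : ‖a‖ ≤ r ^ f)
    (P : PowerSeries ℂ) (hP : ∀ i, ‖PowerSeries.coeff i P‖ ≤ ((i : ℝ) + 1) ^ d * r ^ i) (i : ℕ) :
    ‖PowerSeries.coeff i ((1 - PowerSeries.C a * PowerSeries.X ^ f) * P)‖ ≤
      ((i : ℝ) + 1) ^ (d + 1) * r ^ i := by
  rw [CfB_coeff]
  have hi0 : (0 : ℝ) ≤ i := Nat.cast_nonneg i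
  have hri : 0 ≤ r ^ i := pow_nonneg hr i
  have hb : (0 : ℝ) ≤ ((i : ℝ) + 1) ^ d * r ^ i := by positivity
  split_ifs with hfi
  · have h1 : (1 : ℝ) ≤ i := by
      have : 1 ≤ i := hf.trans hfi
      exact_mod_cast this
    have h2 : ‖a‖ * ‖PowerSeries.coeff (i - f) P‖ ≤ (((i - f : ℕ) : ℝ) + 1) ^ d * r ^ i :=
      CfB_pow hr ha hfi (norm_nonneg _) (hP _)
    have h3 : (((i - f : ℕ) : ℝ) + 1) ^ d ≤ ((i : ℝ) + 1) ^ d := by
      refine pow_le_pow_left₀ (by positivity) ?_ d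
      have : ((i - f : ℕ) : ℝ) ≤ i := by exact_mod_cast Nat.sub_le i f
      linarith
    calc ‖PowerSeries.coeff i P - a * PowerSeries.coeff (i - f) P‖
        ≤ ‖PowerSeries.coeff i P‖ + ‖a * PowerSeries.coeff (i - f) P‖ := norm_sub_le _ _
      _ ≤ ((i : ℝ) + 1) ^ d * r ^ i + ((i : ℝ) + 1) ^ d * r ^ i := by
          rw [norm_mul]
          exact add_le_add (hP i) (h2.trans (mul_le_mul_of_nonneg_right h3 hri))
      _ = 2 * (((i : ℝ) + 1) ^ d * r ^ i) := by ring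
      _ ≤ ((i : ℝ) + 1) * (((i : ℝ) + 1) ^ d * r ^ i) :=
          mul_le_mul_of_nonneg_right (by linarith) hb
      _ = ((i : ℝ) + 1) ^ (d + 1) * r ^ i := by ring
  · rw [mul_zero, sub_zero]
    calc ‖PowerSeries.coeff i P‖ ≤ ((i : ℝ) + 1) ^ d * r ^ i := hP i
      _ = 1 * (((i : ℝ) + 1) ^ d * r ^ i) := by ring
      _ ≤ ((i : ℝ) + 1) * (((i : ℝ) + 1) ^ d * r ^ i) :=
          mul_le_mul_of_nonneg_right (by linarith) hb
      _ = ((i : ℝ) + 1) ^ (d + 1) * r ^ i := by ring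

/-- the second claim, one step -/
private theorem CfB_two (r : ℝ) (hr : 0 ≤ r) (a : ℂ) (f d : ℕ) (hf : 1 ≤ f) (ha : ‖a‖ ≤ r ^ f)
    (A B : PowerSeries ℂ) (hA : ∀ i, ‖PowerSeries.coeff i A‖ ≤ ((i : ℝ) + 1) ^ d * r ^ i)
    (hAB : (1 - PowerSeries.C a * PowerSeries.X ^ f) * B = A) (i : ℕ) :
    ‖PowerSeries.coeff i B‖ ≤ ((i : ℝ) + 1) ^ (d + 1) * r ^ i := by
  induction i using Nat.strong_induction_on with
  | _ i ih =>
    have hi0 : (0 : ℝ) ≤ i := Nat.cast_nonneg i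
    have hri : 0 ≤ r ^ i := pow_nonneg hr i
    have hb : (0 : ℝ) ≤ ((i : ℝ) + 1) ^ d * r ^ i := by positivity
    have h0 : PowerSeries.coeff i B = PowerSeries.coeff i A +
        a * (if f ≤ i then PowerSeries.coeff (i - f) B else 0) := by
      rw [← hAB, CfB_coeff]
      ring
    rw [h0]
    split_ifs with hfi
    · have h1 : ‖a‖ * ‖PowerSeries.coeff (i - f) B‖ ≤
          (((i - f : ℕ) : ℝ) + 1) ^ (d + 1) * r ^ i :=
        CfB_pow hr ha hfi (norm_nonneg _) (ih (i - f) (by omega))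
      have h2 : ((i - f : ℕ) : ℝ) + 1 ≤ i := by
        have : i - f + 1 ≤ i := by omega
        exact_mod_cast this
      have h3 : (((i - f : ℕ) : ℝ) + 1) ^ (d + 1) ≤ (i : ℝ) * ((i : ℝ) + 1) ^ d := by
        calc (((i - f : ℕ) : ℝ) + 1) ^ (d + 1) ≤ (i : ℝ) ^ (d + 1) :=
              pow_le_pow_left₀ (by positivity) h2 _
          _ = (i : ℝ) * (i : ℝ) ^ d := by ring
          _ ≤ (i : ℝ) * ((i : ℝ) + 1) ^ d :=
              mul_le_mul_of_nonneg_left (pow_le_pow_left₀ hi0 (by linarith) d) hi0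
      calc ‖PowerSeries.coeff i A + a * PowerSeries.coeff (i - f) B‖
          ≤ ‖PowerSeries.coeff i A‖ + ‖a * PowerSeries.coeff (i - f) B‖ := norm_add_le _ _
        _ ≤ ((i : ℝ) + 1) ^ d * r ^ i + (i : ℝ) * ((i : ℝ) + 1) ^ d * r ^ i := by
            rw [norm_mul]
            exact add_le_add (hA i) (h1.trans (mul_le_mul_of_nonneg_right h3 hri))
        _ = ((i : ℝ) + 1) ^ (d + 1) * r ^ i := by ring
    · rw [mul_zero, add_zero]
      calc ‖PowerSeries.coeff i A‖ ≤ ((i : ℝ) + 1) ^ d * r ^ i := hA i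
        _ = 1 * (((i : ℝ) + 1) ^ d * r ^ i) := by ring
        _ ≤ ((i : ℝ) + 1) * (((i : ℝ) + 1) ^ d * r ^ i) :=
            mul_le_mul_of_nonneg_right (by linarith) hb
        _ = ((i : ℝ) + 1) ^ (d + 1) * r ^ i := by ring

private theorem CfB_base (r : ℝ) (hr : 0 ≤ r) (i : ℕ) :
    ‖PowerSeries.coeff i (1 : PowerSeries ℂ)‖ ≤ ((i : ℝ) + 1) ^ 0 * r ^ i := by
  rw [PowerSeries.coeff_one, pow_zero, one_mul]
  split_ifs with h
  · rw [h, pow_zero, norm_one]
  · rw [norm_zero]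
    exact pow_nonneg hr i

theorem tCfB : S_CfB := by
  classical
  intro J s r α f hr
  induction s using Finset.induction_on with
  | empty =>
    intro _ i
    have h1 : ((1 : PowerSeries ℂ))⁻¹ = 1 := by
      symm
      rw [PowerSeries.eq_inv_iff_mul_eq_one (by simp)]
      simp
    rw [Finset.prod_empty, Finset.card_empty, h1]
    exact ⟨CfB_base r hr i, CfB_base r hr i⟩
  | insert j s hj ih =>
    intro h i
    have hs : ∀ k ∈ s, 1 ≤ f k ∧ ‖α k‖ ≤ r ^ f k := fun k hk => h k (Finset.mem_insert_of_mem hk)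
    obtain ⟨hf, ha⟩ := h j (Finset.mem_insert_self j s)
    have ih' := ih hs
    rw [Finset.prod_insert hj, Finset.card_insert_of_notMem hj]
    set A : PowerSeries ℂ := ∏ k ∈ s, (1 - PowerSeries.C (α k) * PowerSeries.X ^ f k) with hA
    have hcA : PowerSeries.constantCoeff A = 1 := CfB_const s α f fun k hk => (hs k hk).1
    have hcP : PowerSeries.constantCoeff
        ((1 - PowerSeries.C (α j) * PowerSeries.X ^ f j) * A) ≠ 0 := by
      have h1 : f j ≠ 0 := by omega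
      rw [map_mul, hcA]
      simp [h1]
    refine ⟨CfB_one r hr (α j) (f j) s.card hf ha A (fun k => (ih' k).1) i,
      CfB_two r hr (α j) (f j) s.card hf ha A⁻¹ _ (fun k => (ih' k).2) ?_ i⟩
    rw [PowerSeries.eq_inv_iff_mul_eq_one (by rw [hcA]; exact one_ne_zero)]
    calc (1 - PowerSeries.C (α j) * PowerSeries.X ^ f j) *
          ((1 - PowerSeries.C (α j) * PowerSeries.X ^ f j) * A)⁻¹ * A
        = ((1 - PowerSeries.C (α j) * PowerSeries.X ^ f j) * A)⁻¹ *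
          ((1 - PowerSeries.C (α j) * PowerSeries.X ^ f j) * A) := by ring
      _ = 1 := PowerSeries.inv_mul_cancel _ hcP

end MP7ed9c3.Pz
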