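import Pool.Agent.Lib.MP_7ed9c3_nt.Pz.SpecH

/-!
# MP_7ed9c3_nt, part Pz, module H/CoK (helper40): coefficient identities of `NP` and its inverse
-/

set_option autoImplicit false

namespace MP7ed9c3.Pz

open NumberField IsDedekindDomain MP7ed9c3 MP7ed9c3.Tw MP7ed9c3.Tz

/-- the coefficients `0` and `1` of a product of series with constant coefficient `1` -/
private theorem CoK_prod {J : Type} (s : Finset J) (g : J → PowerSeries ℝ)
    (h : ∀ j ∈ s, PowerSeries.coeff 0 (g j) = 1) :
    PowerSeries.coeff 0 (∏ j ∈ s, g j) = 1 ∧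
      PowerSeries.coeff 1 (∏ j ∈ s, g j) = ∑ j ∈ s, PowerSeries.coeff 1 (g j) := by
  classical
  induction s using Finset.induction_on with
  | empty => simp [PowerSeries.coeff_one]
  | insert j s hj ih =>
    obtain ⟨i1, i2⟩ := ih fun k hk => h k (Finset.mem_insert_of_mem hk)
    have h0 := h j (Finset.mem_insert_self j s)
    rw [Finset.prod_insert hj, Finset.sum_insert hj]
    constructor
    · rw [PowerSeries.coeff_mul, Finset.Nat.sum_antidiagonal_eq_sum_range_succ_mk]
      simp only [Nat.succ_eq_add_one, zero_add, Finset.sum_range_one, Nat.sub_self]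
      rw [h0, i1, one_mul]
    · rw [PowerSeries.coeff_mul, Finset.Nat.sum_antidiagonal_eq_sum_range_succ_mk]
      simp only [Nat.succ_eq_add_one, Finset.sum_range_succ, Finset.sum_range_zero, zero_add,
        Nat.sub_zero, Nat.sub_self]
      rw [h0, i1, i2, one_mul, mul_one, add_comm]

private theorem CoK_fac (t g : ℝ) (f : ℕ) (hf : 1 ≤ f) :
    PowerSeries.coeff 0 (1 - PowerSeries.C t * PowerSeries.X ^ f +
      PowerSeries.C g * PowerSeries.X ^ (2 * f) : PowerSeries ℝ) = 1 ∧
    PowerSeries.coeff 1 (1 - PowerSeries.C t * PowerSeries.X ^ f +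
      PowerSeries.C g * PowerSeries.X ^ (2 * f) : PowerSeries ℝ) = -(if f = 1 then t else 0) := by
  constructor
  · rw [map_add, map_sub, PowerSeries.coeff_C_mul_X_pow, PowerSeries.coeff_C_mul_X_pow,
      PowerSeries.coeff_one, if_pos rfl, if_neg (by omega), if_neg (by omega)]
    ring
  · rw [map_add, map_sub, PowerSeries.coeff_C_mul_X_pow, PowerSeries.coeff_C_mul_X_pow,
      PowerSeries.coeff_one, if_neg (by omega), if_neg (show ¬ 1 = 2 * f by omega)]
    by_cases h : f = 1
    · rw [if_pos h.symm, if_pos h]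
      ring
    · rw [if_neg fun h' => h h'.symm, if_neg h]
      ring

theorem tCoK (h1 : S_Prim) : S_CoK := by
  classical
  intro K _ _ p hp hp3 a
  obtain ⟨-, hD1, hsub, -, hf⟩ := h1 K p hp
  have hfx : ∀ v ∈ Ov K p, 1 ≤ fx p v ∧ nm v = p ^ fx p v := by
    intro v hv
    obtain ⟨f, f1, -, hn⟩ := hf v hv
    have e : fx p v = f := by
      unfold fx
      rw [hn]
      exact Nat.log_pow hp.one_lt f
    rw [e]
    exact ⟨f1, hn⟩
  obtain ⟨c0, c1⟩ := CoK_prod (Ov K p) (fun v => (1 - PowerSeries.C (trp v a) *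
    PowerSeries.X ^ fx p v + PowerSeries.C (gd v a) * PowerSeries.X ^ (2 * fx p v) : PowerSeries ℝ))
    fun v hv => (CoK_fac _ _ _ (hfx v hv).1).1
  have n0 : PowerSeries.coeff 0 (NP K p a) = 1 := c0
  have n1 : PowerSeries.coeff 1 (NP K p a) = -∑ v ∈ D1 K p, trp v a := by
    have e1 : PowerSeries.coeff 1 (NP K p a) =
        ∑ v ∈ Ov K p, PowerSeries.coeff 1 (1 - PowerSeries.C (trp v a) *
          PowerSeries.X ^ fx p v + PowerSeries.C (gd v a) * PowerSeries.X ^ (2 * fx p v) :
            PowerSeries ℝ) := c1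
    rw [e1, Finset.sum_congr rfl fun v hv => (CoK_fac (trp v a) (gd v a) _ (hfx v hv).1).2,
      Finset.sum_neg_distrib, ← Finset.sum_filter]
    congr 1
    refine Finset.sum_congr ?_ fun _ _ => rfl
    ext v
    rw [Finset.mem_filter, hD1]
    constructor
    · rintro ⟨hv, h⟩
      have h2 := (hfx v hv).2
      rw [h, pow_one] at h2
      exact h2
    · intro h
      have hv : v ∈ Ov K p := hsub ((hD1 v).2 h)
      refine ⟨hv, ?_⟩
      unfold fx
      rw [h]
      have h3 := Nat.log_pow hp.one_lt 1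
      rwa [pow_one] at h3
  have hinv : NP K p a * (NP K p a)⁻¹ = 1 := by
    refine PowerSeries.mul_inv_cancel _ ?_
    rw [← PowerSeries.coeff_zero_eq_constantCoeff_apply, n0]
    exact one_ne_zero
  have conv : ∀ k, ∑ i ∈ Finset.range (k + 1), nuK K p i a * beK K p (k - i) a =
      if k = 0 then 1 else 0 := by
    intro k
    have e1 := congrArg (PowerSeries.coeff k) hinv
    rw [PowerSeries.coeff_mul, Finset.Nat.sum_antidiagonal_eq_sum_range_succ_mk,
      PowerSeries.coeff_one] at e1
    exact e1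
  have m0 : nuK K p 0 a = 1 := n0
  have b0 : beK K p 0 a = 1 := by
    have h := conv 0
    simp only [zero_add, Finset.sum_range_one, Nat.sub_self, if_true] at h
    rw [m0, one_mul] at h
    exact h
  have s1 : beK K p 1 a + nuK K p 1 a = 0 := by
    have h := conv 1
    rw [if_neg one_ne_zero, Finset.sum_range_succ, Finset.sum_range_one, Nat.sub_zero,
      Nat.sub_self, m0, b0, one_mul, mul_one] at h
    exact h
  have m1 : nuK K p 1 a = -∑ v ∈ D1 K p, trp v a := n1
  refine ⟨b0, m0, by linarith, by linarith, fun k hk => ?_⟩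
  rw [conv k, if_neg (by omega)]

end MP7ed9c3.Pz
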