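import Pool.Agent.Lib.MP_7ed9c3_nt.Pz.SpecH
import Pool.Agent.Lib.MP_7ed9c3_nt.Tz.TrMean

set_option autoImplicit false

namespace MP7ed9c3.Pz

open NumberField IsDedekindDomain MP7ed9c3 MP7ed9c3.Tw MP7ed9c3.Tz

private theorem EuK_mult (h3 : S_Mul) (K : Type) [Field K] [NumberField K]
    (a : Ix K ⊕ Ix K → ℤ) (s : ℂ) (hs : s.re = 3) : Multipliable (gK a s) := by
  have hsum := (h3 K (fun _ => sw a) s (le_of_eq hs.symm)).2.2.1
  have h : Summable (fun v => ‖gK a s v - 1‖) := by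
    refine Summable.of_nonneg_of_le (fun v => norm_nonneg _) (fun v => ?_) hsum
    unfold gK
    split_ifs with h6
    · rw [sub_self, norm_zero]
      exact norm_nonneg _
    · exact le_rfl
  have h' : Multipliable (fun v => 1 + (gK a s v - 1)) := multipliable_one_add_of_summable h
  have he : (fun v => 1 + (gK a s v - 1)) = gK a s := by
    funext v
    ring
  rwa [he] at h'

private theorem EuK_six (K : Type) [Field K] [NumberField K] (v : HeightOneSpectrum (𝓞 K))
    (p : ℕ) (hp : p.Prime) (hv : ((p : ℕ) : 𝓞 K) ∈ v.asIdeal) :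
    (6 : 𝓞 K) ∈ v.asIdeal ↔ ¬ 3 < p := by
  constructor
  · intro h6 h3
    have hc : Nat.Coprime (2 * 3) p := Nat.Coprime.mul_left
      ((Nat.coprime_primes Nat.prime_two hp).2 (by omega))
      ((Nat.coprime_primes Nat.prime_three hp).2 (by omega))
    have := TrMeanM.not_mem v p hv (2 * 3) hc
    apply this
    have h7 : (((2 * 3 : ℕ) : ℕ) : 𝓞 K) = 6 := by norm_num
    rw [h7]
    exact h6
  · intro h3
    have h2 := hp.two_le
    have hp23 : p = 2 ∨ p = 3 := by omega
    rcases hp23 with h | h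
    · subst h
      have h7 : (6 : 𝓞 K) = 3 * ((2 : ℕ) : 𝓞 K) := by norm_num
      rw [h7]
      exact v.asIdeal.mul_mem_left _ hv
    · subst h
      have h7 : (6 : 𝓞 K) = 2 * ((3 : ℕ) : 𝓞 K) := by norm_num
      rw [h7]
      exact v.asIdeal.mul_mem_left _ hv

theorem tEuK (h1 : S_EuP) (h2 : S_Inv) (h3 : S_Mul) (h4 : S_Reg) (h5 : S_LdK) (h6 : S_Prim) :
    S_EuK := by
  intro K _ _ a s hs
  have hm := EuK_mult h3 K a s hs
  refine ⟨hm, ?_⟩
  have hreg := h4 K (gK a s) hm
  have heu := (h1 (Ix K ⊕ Ix K) (2 * Module.finrank ℚ K) (beK K) (nuK K) (h5 K) a s hs).2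
  have hfun : (fun p : Nat.Primes => ∏ v ∈ Ov K (p : ℕ), gK a s v) =
      (fun p : Nat.Primes => if 3 < (p : ℕ) then
          ∑' e : ℕ, (beK K (p : ℕ) e a : ℂ) * (((p : ℕ) : ℂ) ^ (-s)) ^ e else 1) := by
    funext p
    by_cases hp : 3 < (p : ℕ)
    · rw [if_pos hp, h2 K p p.2 hp a s hs, ← Finset.prod_inv_distrib]
      refine Finset.prod_congr rfl fun v hv => ?_
      have hpm := ((h6 K p p.2).1 v).1 hv
      unfold gK
      rw [if_neg]
      intro hv6
      exact (EuK_six K v p p.2 hpm).1 hv6 hp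
    · rw [if_neg hp]
      refine Finset.prod_eq_one fun v hv => ?_
      have hpm := ((h6 K p p.2).1 v).1 hv
      unfold gK
      rw [if_pos ((EuK_six K v p p.2 hpm).2 hp)]
  rw [hfun] at hreg
  exact hreg.unique heu

end MP7ed9c3.Pz
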