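import Pool.Agent.Lib.MP_7ed9c3_nt.Pz.SpecH

/-!
# MP_7ed9c3_nt, part Pz/H: EuP, the Euler product of a multiplicative function
-/

set_option autoImplicit false

namespace MP7ed9c3.Pz

open NumberField IsDedekindDomain MP7ed9c3 MP7ed9c3.Tw MP7ed9c3.Tz

private theorem EuP_zero {ι : Type} (u : ℕ → ℕ → (ι → ℤ) → ℝ) (a : ι → ℤ) : mulf u 0 a = 0 := by
  unfold mulf
  rw [if_neg]
  decide

private theorem EuP_one {ι : Type} (u : ℕ → ℕ → (ι → ℤ) → ℝ) (a : ι → ℤ) : mulf u 1 a = 1 := by
  unfold mulf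
  rw [if_pos (Nat.coprime_one_left 6)]
  simp

private theorem EuP_mul {ι : Type} (u : ℕ → ℕ → (ι → ℤ) → ℝ) (a : ι → ℤ) {m n : ℕ}
    (h : m.Coprime n) : mulf u (m * n) a = mulf u m a * mulf u n a := by
  unfold mulf
  by_cases hm : m.Coprime 6
  · by_cases hn : n.Coprime 6
    · rw [if_pos hm, if_pos hn, if_pos (Nat.Coprime.mul_left hm hn), h.primeFactors_mul,
        Finset.prod_union h.disjoint_primeFactors]
      congr 1
      · apply Finset.prod_congr rfl
        intro p hp
        have hpn : ¬ p ∣ n := fun hd => by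
          have h1 := Nat.eq_one_of_dvd_coprimes h (Nat.dvd_of_mem_primeFactors hp) hd
          exact (Nat.prime_of_mem_primeFactors hp).one_lt.ne' h1
        rw [Nat.factorization_mul_apply_of_coprime h, Nat.factorization_eq_zero_of_not_dvd hpn,
          add_zero]
      · apply Finset.prod_congr rfl
        intro p hp
        have hpm : ¬ p ∣ m := fun hd => by
          have h1 := Nat.eq_one_of_dvd_coprimes h hd (Nat.dvd_of_mem_primeFactors hp)
          exact (Nat.prime_of_mem_primeFactors hp).one_lt.ne' h1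
        rw [Nat.factorization_mul_apply_of_coprime h, Nat.factorization_eq_zero_of_not_dvd hpm,
          zero_add]
    · rw [if_neg hn, mul_zero, if_neg]
      exact fun h' => hn (Nat.Coprime.coprime_dvd_left (Dvd.intro_left m rfl) h')
  · rw [if_neg hm, zero_mul, if_neg]
    exact fun h' => hm (Nat.Coprime.coprime_dvd_left (Dvd.intro n rfl) h')

private theorem EuP_cop {p : ℕ} (hp : p.Prime) (h3 : 3 < p) : p.Coprime 6 := by
  rw [hp.coprime_iff_not_dvd]
  intro hd
  have h6 : p ≤ 6 := Nat.le_of_dvd (by norm_num) hd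
  interval_cases p
  · exact absurd hp (by norm_num)
  · exact absurd hd (by norm_num)
  · exact absurd hp (by norm_num)

private theorem EuP_pow {ι : Type} (u : ℕ → ℕ → (ι → ℤ) → ℝ) (a : ι → ℤ) {p : ℕ} (hp : p.Prime)
    (h3 : 3 < p) (hu : u p 0 a = 1) (e : ℕ) : mulf u (p ^ e) a = u p e a := by
  rcases Nat.eq_zero_or_pos e with rfl | he
  · rw [pow_zero, EuP_one, hu]
  · unfold mulf
    rw [if_pos (Nat.Coprime.pow_left e (EuP_cop hp h3)), Nat.primeFactors_prime_pow he.ne' hp,
      Finset.prod_singleton, hp.factorization_pow, Finsupp.single_eq_same]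

private theorem EuP_pow3 {ι : Type} (u : ℕ → ℕ → (ι → ℤ) → ℝ) (a : ι → ℤ) {p : ℕ} (hp : p.Prime)
    (h3 : ¬ 3 < p) {e : ℕ} (he : e ≠ 0) : mulf u (p ^ e) a = 0 := by
  unfold mulf
  rw [if_neg]
  intro h
  have h1 : p.Coprime 6 := Nat.Coprime.coprime_dvd_left (dvd_pow_self p he) h
  have h2 := hp.two_le
  have h4 : p ≤ 3 := not_lt.1 h3
  interval_cases p
  · exact absurd h1 (by norm_num)
  · exact absurd h1 (by norm_num)

private theorem EuP_cpow (p : ℕ) (s : ℂ) (e : ℕ) :
    (((p ^ e : ℕ) : ℂ)) ^ s = ((p : ℂ) ^ s) ^ e := by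
  induction e with
  | zero => simp
  | succ e ih =>
    rw [pow_succ, pow_succ, Nat.cast_mul, Complex.natCast_mul_natCast_cpow, ih]

theorem tEuP (h1 : S_MuB) (h2 : S_DvB) : S_EuP := by
  intro ι _ D β ν hL a s hs
  obtain ⟨C, hC, hd⟩ := h2 D
  set F : ℕ → ℂ := fun m => (mulf β m a : ℂ) * (m : ℂ) ^ (-s) with hF
  have hF0 : F 0 = 0 := by
    rw [hF]
    simp only
    rw [EuP_zero]
    simp
  have hF1 : F 1 = 1 := by
    rw [hF]
    simp only
    rw [EuP_one]
    simp
  have hFmul : ∀ {m n : ℕ}, m.Coprime n → F (m * n) = F m * F n := by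
    intro m n h
    rw [hF]
    simp only
    rw [EuP_mul β a h, Nat.cast_mul, Complex.natCast_mul_natCast_cpow]
    push_cast
    ring
  have hsum : Summable (fun m => ‖F m‖) := by
    have hb : Summable (fun m : ℕ => C * (m : ℝ) ^ (-(12 / 5) : ℝ)) :=
      (Real.summable_nat_rpow.2 (by norm_num)).mul_left C
    refine Summable.of_nonneg_of_le (fun m => norm_nonneg _) (fun m => ?_) hb
    rcases Nat.eq_zero_or_pos m with rfl | hm
    · rw [hF0, norm_zero]
      positivity
    · have hm0 : (0 : ℝ) < m := by exact_mod_cast hm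
      have e1 := (h1 ι D β ν hL m a hm).1
      have e2 := hd m hm
      have e3 : ‖F m‖ = |mulf β m a| * (m : ℝ) ^ (-3 : ℝ) := by
        rw [hF]
        simp only
        rw [norm_mul, Complex.norm_real, Real.norm_eq_abs, Complex.norm_natCast_cpow_of_pos hm,
          Complex.neg_re, hs]
      rw [e3]
      calc |mulf β m a| * (m : ℝ) ^ (-3 : ℝ)
          ≤ ((C * (m : ℝ) ^ (1 / 10 : ℝ)) * (m : ℝ) ^ (1 / 2 : ℝ)) * (m : ℝ) ^ (-3 : ℝ) := by
            apply mul_le_mul_of_nonneg_right _ (by positivity)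
            refine e1.trans ?_
            rw [Real.sqrt_eq_rpow]
            exact mul_le_mul_of_nonneg_right e2 (by positivity)
        _ = C * ((m : ℝ) ^ (1 / 10 : ℝ) * (m : ℝ) ^ (1 / 2 : ℝ) * (m : ℝ) ^ (-3 : ℝ)) := by ring
        _ = C * (m : ℝ) ^ (-(12 / 5) : ℝ) := by
            rw [← Real.rpow_add hm0, ← Real.rpow_add hm0]
            norm_num
  have hFp : ∀ p : ℕ, p.Prime → 3 < p → ∀ e : ℕ, F (p ^ e) =
      (β p e a : ℂ) * ((p : ℂ) ^ (-s)) ^ e := by
    intro p hp h3 e
    rw [hF]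
    simp only
    rw [EuP_pow β a hp h3 ((hL p hp h3).2.1 a).1 e, EuP_cpow]
  refine ⟨?_, ?_⟩
  · intro p hp h3
    have h4 := hsum.comp_injective (Nat.pow_right_injective hp.two_le)
    refine h4.congr fun e => ?_
    simp only [Function.comp_apply]
    rw [hFp p hp h3 e]
  · have hE := EulerProduct.eulerProduct_hasProd hF1 hFmul hsum hF0
    have hs2 : Summable F := hsum.of_norm
    rw [hs2.tsum_eq_zero_add, hF0, zero_add] at hE
    have hfun : (fun p : Nat.Primes => ∑' e : ℕ, F ((p : ℕ) ^ e)) =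
        fun p : Nat.Primes => if 3 < (p : ℕ) then
          ∑' e : ℕ, (β (p : ℕ) e a : ℂ) * (((p : ℕ) : ℂ) ^ (-s)) ^ e else 1 := by
      funext p
      by_cases h3 : 3 < (p : ℕ)
      · rw [if_pos h3]
        exact tsum_congr fun e => hFp p p.2 h3 e
      · rw [if_neg h3, tsum_eq_single 0]
        · rw [pow_zero, hF1]
        · intro e he
          rw [hF]
          simp only
          rw [EuP_pow3 β a p.2 h3 he]
          simp
    rw [hfun] at hE
    exact hE

end MP7ed9c3.Pz
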