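import Pool.Agent.Lib.MP_7ed9c3_nt.Pz.SpecH

/-!
# MP_7ed9c3_nt, part Pz, module Inv: the local series and the inverse polynomial
-/

set_option autoImplicit false

namespace MP7ed9c3.Pz

open NumberField IsDedekindDomain MP7ed9c3 MP7ed9c3.Tw MP7ed9c3.Tz

private theorem Inv_pow (q : ℕ) (s : ℂ) (j : ℕ) :
    ((q ^ j : ℕ) : ℂ) ^ s = ((q : ℂ) ^ s) ^ j := by
  induction j with
  | zero => simp
  | succ j ih =>
    rw [pow_succ, Nat.cast_mul, Complex.natCast_mul_natCast_cpow, ih, pow_succ]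

/-- summability of the majorant -/
private theorem Inv_maj {r : ℝ} (h0 : 0 < r) (h1 : r < 1) (D : ℕ) :
    Summable (fun e : ℕ => ((e : ℝ) + 1) ^ D * r ^ e) := by
  have h2 : Summable (fun n : ℕ => ((n : ℝ)) ^ D * r ^ n) :=
    summable_pow_mul_geometric_of_norm_lt_one D (by rw [Real.norm_eq_abs, abs_of_pos h0]; exact h1)
  have h3 := (summable_nat_add_iff 1).mpr h2
  have h4 := h3.mul_right r⁻¹
  refine h4.congr ?_
  intro e
  push_cast
  rw [pow_succ]
  field_simp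

/-- the series of the coefficients of a polynomial -/
private theorem Inv_poly (P : Polynomial ℝ) (x : ℂ) :
    ∑' e : ℕ, ((P.coeff e : ℝ) : ℂ) * x ^ e = Polynomial.eval₂ Complex.ofRealHom x P := by
  rw [Polynomial.eval₂_eq_sum_range, tsum_eq_sum (s := Finset.range (P.natDegree + 1))]
  · rfl
  · intro e he
    rw [Finset.mem_range, not_lt] at he
    rw [Polynomial.coeff_eq_zero_of_natDegree_lt (by omega)]
    simp

/-- the local factor -/
private theorem Inv_fac {K : Type} [Field K] [NumberField K] {p : ℕ} (hp : p.Prime)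
    (a : Ix K ⊕ Ix K → ℤ) (s : ℂ) (v : HeightOneSpectrum (𝓞 K)) {f : ℕ} (hf : nm v = p ^ f) :
    1 - ((trp v a : ℝ) : ℂ) * ((p : ℂ) ^ (-s)) ^ f +
      ((gd v a : ℝ) : ℂ) * ((p : ℂ) ^ (-s)) ^ (2 * f) = locDen (sw a) v s := by
  have hp0 : (p : ℂ) ≠ 0 := by exact_mod_cast hp.ne_zero
  have hq0 : ((nm v : ℕ) : ℂ) ≠ 0 := by
    rw [hf]
    exact_mod_cast (pow_pos hp.pos f).ne'
  have hq1 : ((nm v : ℕ) : ℂ) ^ (-s) = ((p : ℂ) ^ (-s)) ^ f := by
    rw [hf, Inv_pow]
  have hq2 : ((nm v : ℕ) : ℂ) ^ (1 - 2 * s) = ((nm v : ℕ) : ℂ) * ((p : ℂ) ^ (-s)) ^ (2 * f) := by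
    have h1 : (1 : ℂ) - 2 * s = 1 + (-s) + (-s) := by ring
    rw [h1, Complex.cpow_add _ _ hq0, Complex.cpow_add _ _ hq0, Complex.cpow_one, hq1]
    ring
  unfold locDen eden
  rw [hq1, hq2]
  have htr : ((trp v a : ℝ) : ℂ) = ((tr (sw a) v : ℤ) : ℂ) := by
    unfold trp sw
    norm_cast
  rw [htr]
  unfold gd
  by_cases hg : (sw a).Δ ∉ v.asIdeal
  · rw [if_pos hg, if_pos hg]
    push_cast
    ring
  · rw [if_neg hg, if_neg hg]
    push_cast
    ring

theorem tInv (h1 : S_LdK) (h2 : S_Prim) : S_Inv := by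
  intro K _ _ p hp hp3 a s hs
  obtain ⟨-, hone, hbd, hconv, -⟩ := h1 K p hp hp3
  obtain ⟨hb0, hn0, -⟩ := hone a
  have hpR : (3 : ℝ) < p := by exact_mod_cast hp3
  have hp0 : (0 : ℝ) < p := by linarith
  set x : ℂ := (p : ℂ) ^ (-s) with hx
  have hxn : ‖x‖ = (p : ℝ) ^ (-(3 : ℝ)) := by
    rw [hx, Complex.norm_natCast_cpow_of_pos hp.pos, Complex.neg_re, hs]
  have hsq : 0 < √(p : ℝ) := Real.sqrt_pos.mpr hp0
  have hxn0 : 0 < ‖x‖ := by rw [hxn]; positivity
  set r : ℝ := √(p : ℝ) * ‖x‖ with hr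
  have hr0 : 0 < r := mul_pos hsq hxn0
  have hr1 : r < 1 := by
    have h3 : √(p : ℝ) ≤ p := by
      rw [Real.sqrt_le_left hp0.le]
      nlinarith
    have h4 : ‖x‖ = ((p : ℝ) ^ 3)⁻¹ := by
      rw [hxn, Real.rpow_neg hp0.le]
      norm_cast
    have h5 : (p : ℝ) < (p : ℝ) ^ 3 := by nlinarith [pow_pos hp0 2, pow_pos hp0 3]
    calc r = √(p : ℝ) * ‖x‖ := rfl
      _ ≤ p * ((p : ℝ) ^ 3)⁻¹ := by
          rw [h4]
          exact mul_le_mul_of_nonneg_right h3 (by positivity)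
      _ < 1 := by
          rw [← div_eq_mul_inv, div_lt_one (by positivity)]
          exact h5
  have hmaj := Inv_maj hr0 hr1 (2 * Module.finrank ℚ K)
  have hsum : ∀ u : ℕ → ℝ, (∀ i, |u i| ≤ ((i : ℝ) + 1) ^ (2 * Module.finrank ℚ K) *
      √(p : ℝ) ^ i) → Summable (fun e : ℕ => ‖((u e : ℝ) : ℂ) * x ^ e‖) := by
    intro u hu
    refine Summable.of_nonneg_of_le (fun e => norm_nonneg _) (fun e => ?_) hmaj
    rw [norm_mul, norm_pow, Complex.norm_real, Real.norm_eq_abs, hr, mul_pow, ← mul_assoc]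
    exact mul_le_mul_of_nonneg_right (hu e) (by positivity)
  have hB := hsum (fun e => beK K p e a) (fun i => (hbd i a).1)
  have hN := hsum (fun e => nuK K p e a) (fun i => (hbd i a).2)
  -- the Cauchy product
  have hprod : (∑' e : ℕ, ((nuK K p e a : ℝ) : ℂ) * x ^ e) *
      (∑' e : ℕ, ((beK K p e a : ℝ) : ℂ) * x ^ e) = 1 := by
    rw [tsum_mul_tsum_eq_tsum_sum_antidiagonal_of_summable_norm hN hB]
    rw [tsum_eq_single 0]
    · simp [hb0, hn0]
    · intro n hn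
      have h3 : ∀ kl ∈ Finset.HasAntidiagonal.antidiagonal n,
          ((nuK K p kl.1 a : ℝ) : ℂ) * x ^ kl.1 * (((beK K p kl.2 a : ℝ) : ℂ) * x ^ kl.2) =
          ((nuK K p kl.1 a * beK K p kl.2 a : ℝ) : ℂ) * x ^ n := by
        intro kl hkl
        rw [Finset.HasAntidiagonal.mem_antidiagonal] at hkl
        rw [← hkl, pow_add]
        push_cast
        ring
      rw [Finset.sum_congr rfl h3, ← Finset.sum_mul]
      have h4 := hconv n (Nat.one_le_iff_ne_zero.mpr hn) a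
      rw [← Finset.Nat.sum_antidiagonal_eq_sum_range_succ
        (fun i j => nuK K p i a * beK K p j a) n] at h4
      rw [← Complex.ofReal_sum, h4]
      simp
  -- the polynomial
  have hpoly : (∑' e : ℕ, ((nuK K p e a : ℝ) : ℂ) * x ^ e) = ∏ v ∈ Ov K p, locDen (sw a) v s := by
    set P : Polynomial ℝ := ∏ v ∈ Ov K p, (1 - Polynomial.C (trp v a) * Polynomial.X ^ fx p v +
      Polynomial.C (gd v a) * Polynomial.X ^ (2 * fx p v)) with hP
    have h3 : NP K p a = (P : PowerSeries ℝ) := by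
      have h4 : (P : PowerSeries ℝ) = Polynomial.coeToPowerSeries.ringHom P := rfl
      rw [h4, hP, map_prod]
      unfold NP
      refine Finset.prod_congr rfl (fun v _ => ?_)
      simp [Polynomial.coeToPowerSeries.ringHom_apply]
    have h5 : ∀ e : ℕ, nuK K p e a = P.coeff e := by
      intro e
      unfold nuK
      rw [h3, Polynomial.coeff_coe]
    have h6 : (∑' e : ℕ, ((nuK K p e a : ℝ) : ℂ) * x ^ e) =
        ∑' e : ℕ, ((P.coeff e : ℝ) : ℂ) * x ^ e := by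
      refine tsum_congr (fun e => ?_)
      rw [h5 e]
    rw [h6, Inv_poly, hP, Polynomial.eval₂_finsetProd]
    refine Finset.prod_congr rfl (fun v hv => ?_)
    obtain ⟨f, hf1, -, hf⟩ := (h2 K p hp).2.2.2.2 v hv
    have hfx : fx p v = f := by
      unfold fx
      rw [hf, Nat.log_pow hp.one_lt]
    rw [← Inv_fac hp a s v hf, hfx]
    simp [Polynomial.eval₂_add, Polynomial.eval₂_sub, Polynomial.eval₂_mul, Polynomial.eval₂_pow,
      Polynomial.eval₂_C, Polynomial.eval₂_X, ← hx]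
  rw [hpoly] at hprod
  exact eq_inv_of_mul_eq_one_right hprod

end MP7ed9c3.Pz
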