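import Pool.Agent.Lib.MP_7ed9c3_nt.Pz.SpecH

/-!
# MP_7ed9c3_nt, part Pz, module LdK: the local data
-/

set_option autoImplicit false

namespace MP7ed9c3.Pz

open NumberField IsDedekindDomain MP7ed9c3 MP7ed9c3.Tw MP7ed9c3.Tz

private lemma LdK_mean_sum {ι J : Type} [Fintype ι] (p : ℕ) (s : Finset J) (h : J → (ι → ℤ) → ℝ)
    (h0 : ∀ j ∈ s, mean p (h j) = 0) : mean p (fun a => ∑ j ∈ s, h j a) = 0 := by
  unfold mean at h0 ⊢
  rw [Finset.sum_comm, Finset.sum_div]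
  exact Finset.sum_eq_zero h0

private lemma LdK_inv (P : PowerSeries ℝ) (h : PowerSeries.constantCoeff P ≠ 0) :
    PowerSeries.map Complex.ofRealHom P⁻¹ = (PowerSeries.map Complex.ofRealHom P)⁻¹ := by
  have h1 : P * P⁻¹ = 1 := PowerSeries.mul_inv_cancel P h
  have h2 : PowerSeries.constantCoeff (PowerSeries.map Complex.ofRealHom P) ≠ 0 := by
    rw [← PowerSeries.coeff_zero_eq_constantCoeff_apply, PowerSeries.coeff_map,
      PowerSeries.coeff_zero_eq_constantCoeff_apply]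
    simpa using h
  rw [PowerSeries.eq_inv_iff_mul_eq_one h2, mul_comm, ← map_mul, h1, map_one]

private lemma LdK_bd (h1 : S_CfB) (h2 : S_RtK) (h4 : S_CoK) (h6 : S_Prim) (K : Type) [Field K]
    [NumberField K] (p : ℕ) (hp : p.Prime) (hp3 : 3 < p) (a : Ix K ⊕ Ix K → ℤ) (i : ℕ) :
    |nuK K p i a| ≤ ((i : ℝ) + 1) ^ (2 * Module.finrank ℚ K) * √(p : ℝ) ^ i ∧
    |beK K p i a| ≤ ((i : ℝ) + 1) ^ (2 * Module.finrank ℚ K) * √(p : ℝ) ^ i := by
  obtain ⟨α, β, hmap, hv⟩ := h2 K p hp hp3 a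
  classical
  set s : Finset (HeightOneSpectrum (𝓞 K) × Bool) := Ov K p ×ˢ Finset.univ with hs
  set γ : HeightOneSpectrum (𝓞 K) × Bool → ℂ := fun j => if j.2 then α j.1 else β j.1 with hγ
  have hprod : PowerSeries.map Complex.ofRealHom (NP K p a) =
      ∏ j ∈ s, (1 - PowerSeries.C (γ j) * PowerSeries.X ^ (fx p j.1)) := by
    rw [hmap, hs, Finset.prod_product]
    refine Finset.prod_congr rfl fun v _ => ?_
    rw [Fintype.prod_bool]
    simp [hγ]
  have hcard : s.card ≤ 2 * Module.finrank ℚ K := by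
    rw [hs, Finset.card_product, Finset.card_univ, Fintype.card_bool]
    have := (h6 K p hp).2.2.2.1
    omega
  have hb := h1 _ s (√(p : ℝ)) γ (fun j => fx p j.1) (Real.sqrt_nonneg _) (by
    intro j hj
    obtain ⟨a1, a2, a3, a4⟩ := hv j.1 (Finset.mem_product.1 hj).1
    refine ⟨a1, ?_⟩
    by_cases hj2 : j.2 = true
    · simpa [hγ, hj2] using a3
    · simpa [hγ, hj2] using a4) i
  rw [← hprod] at hb
  have hpow : ((i : ℝ) + 1) ^ s.card * √(p : ℝ) ^ i ≤
      ((i : ℝ) + 1) ^ (2 * Module.finrank ℚ K) * √(p : ℝ) ^ i :=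
    mul_le_mul_of_nonneg_right
      (pow_le_pow_right₀ (by linarith [Nat.cast_nonneg (α := ℝ) i]) hcard) (by positivity)
  have hc0 : PowerSeries.constantCoeff (NP K p a) ≠ 0 := by
    have := (h4 K p hp hp3 a).2.1
    unfold nuK at this
    rw [PowerSeries.coeff_zero_eq_constantCoeff_apply] at this
    rw [this]
    exact one_ne_zero
  constructor
  · refine le_trans (le_of_eq ?_) (hb.1.trans hpow)
    rw [PowerSeries.coeff_map]
    unfold nuK
    simp
  · refine le_trans (le_of_eq ?_) (hb.2.trans hpow)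
    rw [← LdK_inv _ hc0, PowerSeries.coeff_map]
    unfold beK
    simp

theorem tLdK (h1 : S_CfB) (h2 : S_RtK) (h3 : S_PeK) (h4 : S_CoK) (h5 : S_Me0) (h6 : S_Prim) :
    S_LdK := by
  intro K _ _ p hp hp3
  refine ⟨fun i => h3 K p hp hp3 i, fun a => ?_, fun i a => ?_, fun k hk a => ?_, ?_⟩
  · obtain ⟨c1, c2, c3, _, _⟩ := h4 K p hp hp3 a
    exact ⟨c1, c2, c3⟩
  · exact (LdK_bd h1 h2 h4 h6 K p hp hp3 a i).symm
  · exact (h4 K p hp hp3 a).2.2.2.2 k hk
  · have he : beK K p 1 = fun a => ∑ v ∈ D1 K p, trp v a := by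
      funext a
      exact (h4 K p hp hp3 a).2.2.2.1
    rw [he]
    exact LdK_mean_sum p (D1 K p) (fun v => trp v) fun v hv => h5 K p hp hp3 v hv

end MP7ed9c3.Pz
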