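import Pool.Agent.Lib.MP_7ed9c3_nt.Pz.SpecH
import Pool.Agent.Lib.MP_7ed9c3_nt.Tz.TrMean

/-!
# MP_7ed9c3_nt, Pz/H: the mean value of the trace (helper95)
-/

set_option autoImplicit false

namespace MP7ed9c3.Pz

open NumberField IsDedekindDomain MP7ed9c3 MP7ed9c3.Tw MP7ed9c3.Tz

open MP7ed9c3.Tz.TrMeanM in
/-- **Me0.** -/
theorem tMe0 (h1 : S_Hom) (h2 : S_FF) : S_Me0 := by
  classical
  intro K _ _ p hp hp3 v hv
  have hn : nm v = p := (Set.Finite.mem_toFinset (fin_nm K p)).1 hv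
  have hm : ((p : ℕ) : 𝓞 K) ∈ v.asIdeal :=
    MP7ed9c3.Zs.overz_mem v (k := 1) (by rw [pow_one]; exact hn)
  have h20 : (2 : 𝓞 K) ∉ v.asIdeal := by
    have := not_mem v p hm 2 ((Nat.coprime_primes Nat.prime_two hp).2 (by omega))
    exact_mod_cast this
  have fv : Finite (𝓞 K ⧸ v.asIdeal) := Ideal.finiteQuotientOfFreeOfNeBot v.asIdeal v.ne_bot
  let _ : Fintype (𝓞 K ⧸ v.asIdeal) := Fintype.ofFinite _
  obtain ⟨-, c2, -⟩ := sums h2 v h20
  have hs : ∀ g : (𝓞 K ⧸ v.asIdeal) × (𝓞 K ⧸ v.asIdeal), p • g = 0 := by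
    rintro ⟨x, y⟩
    rw [Prod.smul_mk, smul_zero' v p hm, smul_zero' v p hm]
    rfl
  have h := (h1 _ _ (phi v) p (cf v) (phi_surj v) hp.pos hs).2
  simp only [← trp_eq] at h
  have h' : mean p (fun a => trp v a) = 0 := by rw [h, c2, zero_div]
  exact h'

end MP7ed9c3.Pz
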