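import Pool.Agent.Lib.MP_7ed9c3_nt.Pz.SpecH

/-!
# MP_7ed9c3_nt, part Pz, module MuB: size of the multiplicative functions
-/

set_option autoImplicit false

namespace MP7ed9c3.Pz

open NumberField IsDedekindDomain MP7ed9c3 MP7ed9c3.Tw MP7ed9c3.Tz

private lemma MuB_sqrt (m : ℕ) (hm : m ≠ 0) :
    ∏ p ∈ m.primeFactors, √(p : ℝ) ^ m.factorization p = √(m : ℝ) := by
  have h0 : 0 ≤ ∏ p ∈ m.primeFactors, √(p : ℝ) ^ m.factorization p :=
    Finset.prod_nonneg fun p _ => by positivity
  have h1 : (∏ p ∈ m.primeFactors, √(p : ℝ) ^ m.factorization p) ^ 2 = (m : ℝ) := by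
    rw [← Finset.prod_pow]
    have h2 : ∀ p ∈ m.primeFactors, (√(p : ℝ) ^ m.factorization p) ^ 2 =
        ((p : ℝ)) ^ m.factorization p := by
      intro p _
      rw [← pow_mul, mul_comm, pow_mul, Real.sq_sqrt (Nat.cast_nonneg p)]
    rw [Finset.prod_congr rfl h2]
    have h3 : m.factorization.prod (fun p k => p ^ k) = m := Nat.prod_factorization_pow_eq_self hm
    have h4 : m.factorization.prod (fun p k => p ^ k) =
        ∏ p ∈ m.primeFactors, p ^ m.factorization p := rfl
    rw [h4] at h3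
    exact_mod_cast h3
  rw [← h1, Real.sqrt_sq h0]

private lemma MuB_main {ι : Type} (D : ℕ) (u : ℕ → ℕ → (ι → ℤ) → ℝ)
    (hu : ∀ p : ℕ, p.Prime → 3 < p → ∀ i a, |u p i a| ≤ ((i : ℝ) + 1) ^ D * √(p : ℝ) ^ i)
    (m : ℕ) (a : ι → ℤ) (hm : 1 ≤ m) :
    |mulf u m a| ≤ (m.divisors.card : ℝ) ^ D * √(m : ℝ) := by
  have hm0 : m ≠ 0 := by omega
  unfold mulf
  split_ifs with h
  · rw [Finset.abs_prod]
    have h1 : ∀ p ∈ m.primeFactors, |u p (m.factorization p) a| ≤
        (((m.factorization p : ℕ) : ℝ) + 1) ^ D * √(p : ℝ) ^ m.factorization p := by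
      intro p hp
      have hpp := Nat.prime_of_mem_primeFactors hp
      have hpm := Nat.dvd_of_mem_primeFactors hp
      refine hu p hpp ?_ _ a
      by_contra h3
      have h4 : Nat.Coprime p 6 := Nat.Coprime.coprime_dvd_left hpm h
      have h5 := hpp.two_le
      have h6 : p = 2 ∨ p = 3 := by omega
      rcases h6 with rfl | rfl
      · norm_num at h4
      · norm_num at h4
    calc ∏ p ∈ m.primeFactors, |u p (m.factorization p) a|
        ≤ ∏ p ∈ m.primeFactors,
          ((((m.factorization p : ℕ) : ℝ) + 1) ^ D * √(p : ℝ) ^ m.factorization p) :=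
          Finset.prod_le_prod (fun p _ => abs_nonneg _) h1
      _ = (∏ p ∈ m.primeFactors, (((m.factorization p : ℕ) : ℝ) + 1)) ^ D * √(m : ℝ) := by
          rw [Finset.prod_mul_distrib, Finset.prod_pow, MuB_sqrt m hm0]
      _ = (m.divisors.card : ℝ) ^ D * √(m : ℝ) := by
          rw [Nat.card_divisors hm0]
          push_cast
          rfl
  · rw [abs_zero]
    positivity

theorem tMuB : S_MuB := by
  intro ι _ D β ν h m a hm
  refine ⟨MuB_main D β ?_ m a hm, MuB_main D ν ?_ m a hm⟩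
  · intro p hp h3 i a
    exact ((h p hp h3).2.2.1 i a).1
  · intro p hp h3 i a
    exact ((h p hp h3).2.2.1 i a).2

end MP7ed9c3.Pz
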