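import Pool.Agent.Lib.MP_7ed9c3_nt.Pz.SpecH

/-!
# MP_7ed9c3_nt, part Pz.  Module Mul (absolute convergence of the Euler product)
-/

set_option autoImplicit false

namespace MP7ed9c3.Pz

open NumberField IsDedekindDomain MP7ed9c3 MP7ed9c3.Tw MP7ed9c3.Tz

private theorem Mul_fac {X Z : ℂ} {t : ℝ} (ht : t ≤ 1 / 4) (hX : ‖X‖ ≤ t) (hZ : ‖Z‖ ≤ t) :
    (1 - X) * (1 - Z) ≠ 0 ∧ ‖((1 - X) * (1 - Z))⁻¹ - 1‖ ≤ 4 * t := by
  have ht0 : 0 ≤ t := (norm_nonneg X).trans hX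
  have h1 : 3 / 4 ≤ ‖1 - X‖ := by
    have := norm_sub_norm_le (1 : ℂ) X
    rw [norm_one] at this
    linarith
  have h2 : 3 / 4 ≤ ‖1 - Z‖ := by
    have := norm_sub_norm_le (1 : ℂ) Z
    rw [norm_one] at this
    linarith
  have h3 : 9 / 16 ≤ ‖(1 - X) * (1 - Z)‖ := by
    rw [norm_mul]
    nlinarith
  have h0 : (1 - X) * (1 - Z) ≠ 0 := by
    intro h
    rw [h, norm_zero] at h3
    norm_num at h3
  refine ⟨h0, ?_⟩
  have h4 : ((1 - X) * (1 - Z))⁻¹ - 1 = (X + Z - X * Z) / ((1 - X) * (1 - Z)) := by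
    rw [eq_div_iff h0, sub_mul, inv_mul_cancel₀ h0]
    ring
  have h5 : ‖X + Z - X * Z‖ ≤ 9 / 4 * t := by
    have h6 : ‖X + Z - X * Z‖ ≤ ‖X‖ + ‖Z‖ + ‖X‖ * ‖Z‖ := by
      refine (norm_sub_le _ _).trans ?_
      rw [norm_mul]
      linarith [norm_add_le X Z]
    have h7 : ‖X‖ * ‖Z‖ ≤ t * (1 / 4) :=
      mul_le_mul hX (hZ.trans ht) (norm_nonneg _) ht0
    linarith
  rw [h4, norm_div, div_le_iff₀ (by linarith)]
  nlinarith

private theorem Mul_pt {q : ℕ} (hq : 2 ≤ q) {s : ℂ} (hs : 3 ≤ s.re) :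
    (q : ℝ) ^ (1 - s.re) ≤ (q : ℝ) ^ (-(2 : ℝ)) ∧ (q : ℝ) ^ (-(2 : ℝ)) ≤ 1 / 4 ∧
      ∀ a : ℂ, ‖a‖ ≤ max (√(q : ℝ)) (q - 1) → ‖a * (q : ℂ) ^ (-s)‖ ≤ (q : ℝ) ^ (1 - s.re) := by
  have hq2 : (2 : ℝ) ≤ q := by exact_mod_cast hq
  have hq0 : (0 : ℝ) < q := by linarith
  refine ⟨Real.rpow_le_rpow_of_exponent_le (by linarith) (by linarith), ?_, fun a ha => ?_⟩
  · rw [Real.rpow_neg hq0.le, Real.rpow_two, inv_le_comm₀ (by positivity) (by norm_num)]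
    nlinarith
  · have h1 : max (√(q : ℝ)) (q - 1) ≤ q := by
      refine max_le ?_ (by linarith)
      rw [Real.sqrt_le_left hq0.le]
      nlinarith
    rw [norm_mul, Complex.norm_natCast_cpow_of_pos (by omega), Complex.neg_re]
    calc ‖a‖ * (q : ℝ) ^ (-s.re) ≤ q * (q : ℝ) ^ (-s.re) :=
          mul_le_mul_of_nonneg_right (ha.trans h1) (by positivity)
      _ = (q : ℝ) ^ (1 - s.re) := by
          rw [sub_eq_add_neg, Real.rpow_add hq0, Real.rpow_one]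

theorem tMul (h1 : S_Loc) : S_Mul := by
  intro K _ _ M s hs
  obtain ⟨α, β, hloc, hb, -, -⟩ := h1 K M
  obtain ⟨C, hC⟩ := countPrimes K
  have hq2 : ∀ v : HeightOneSpectrum (𝓞 K), 2 ≤ nm v := hC.1
  have hA : ∀ v : HeightOneSpectrum (𝓞 K), 2 ≤ nm v ∧ locDen (M v) v s ≠ 0 ∧
      ‖(locDen (M v) v s)⁻¹ - 1‖ ≤ 4 * (nm v : ℝ) ^ (1 - s.re) := by
    intro v
    obtain ⟨p1, p2, p3⟩ := Mul_pt (hq2 v) hs
    rw [hloc v s]
    exact ⟨hq2 v, Mul_fac (p1.trans p2) (p3 _ (hb v).1) (p3 _ (hb v).2)⟩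
  have hB : Summable (fun v : HeightOneSpectrum (𝓞 K) => (nm v : ℝ) ^ (-(2 : ℝ))) := by
    refine (a9_summable sparseSums hC 1).congr fun v => ?_
    rw [Real.rpow_neg (Nat.cast_nonneg _), Real.rpow_two, one_div]
  have hD : Summable (fun v => ‖(locDen (M v) v s)⁻¹ - 1‖) := by
    refine Summable.of_nonneg_of_le (fun v => norm_nonneg _) (fun v => ?_) (hB.mul_left 4)
    exact (hA v).2.2.trans (mul_le_mul_of_nonneg_left (Mul_pt (hq2 v) hs).1 (by norm_num))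
  refine ⟨hA, hB, hD, ?_⟩
  refine (multipliable_one_add_of_summable hD).congr fun v => ?_
  ring

end MP7ed9c3.Pz
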