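import Pool.Agent.Lib.MP_7ed9c3_nt.Pz.SpecH
import Pool.Agent.Lib.MP_7ed9c3_nt.Tz.TrMean

/-!
# MP_7ed9c3_nt, part Pz: periods of the local data (helper55)
-/

set_option autoImplicit false

namespace MP7ed9c3.Pz

open NumberField IsDedekindDomain MP7ed9c3 MP7ed9c3.Tw MP7ed9c3.Tz

section
variable {K : Type} [Field K] [NumberField K]

private theorem PeK_phi (v : HeightOneSpectrum (𝓞 K)) (p : ℕ)
    (hp : ((p : ℕ) : 𝓞 K) ∈ v.asIdeal) (a b : Ix K ⊕ Ix K → ℤ) :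
    TrMeanM.phi v (a + (p : ℤ) • b) = TrMeanM.phi v a := by
  have h : TrMeanM.phi v ((p : ℤ) • b) = 0 := by
    rw [map_zsmul, natCast_zsmul]
    exact Prod.ext (TrMeanM.smul_zero' v p hp _) (TrMeanM.smul_zero' v p hp _)
  rw [map_add, h, add_zero]

private theorem PeK_disc (v : HeightOneSpectrum (𝓞 K)) (a : Ix K ⊕ Ix K → ℤ) :
    (sw a).Δ ∈ v.asIdeal ↔
      -(16 * (4 * (TrMeanM.phi v a).1 ^ 3 + 27 * (TrMeanM.phi v a).2 ^ 2)) = 0 := by
  have h1 : (TrMeanM.phi v a).1 = Ideal.Quotient.mk v.asIdeal (pt fun i => a (Sum.inl i)) := rfl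
  have h2 : (TrMeanM.phi v a).2 = Ideal.Quotient.mk v.asIdeal (pt fun i => a (Sum.inr i)) := rfl
  rw [← Ideal.Quotient.eq_zero_iff_mem, h1, h2]
  unfold sw
  rw [W3.Δ_short]
  simp only [map_neg, map_mul, map_add, map_pow, map_ofNat]

private theorem PeK_NP (h1 : S_Prim) (p : ℕ) (hp : p.Prime) (a b : Ix K ⊕ Ix K → ℤ) :
    NP K p (a + (p : ℤ) • b) = NP K p a := by
  unfold NP
  refine Finset.prod_congr rfl fun v hv => ?_
  have hm : ((p : ℕ) : 𝓞 K) ∈ v.asIdeal := ((h1 K p hp).1 v).1 hv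
  have e1 : trp v (a + (p : ℤ) • b) = trp v a := by
    rw [TrMeanM.trp_eq, TrMeanM.trp_eq, PeK_phi v p hm]
  have e2 : gd v (a + (p : ℤ) • b) = gd v a := by
    have e3 : (sw (a + (p : ℤ) • b)).Δ ∉ v.asIdeal ↔ (sw a).Δ ∉ v.asIdeal := by
      rw [PeK_disc, PeK_disc, PeK_phi v p hm]
    unfold gd
    by_cases h : (sw a).Δ ∉ v.asIdeal
    · rw [if_pos (e3.2 h), if_pos h]
    · rw [if_neg fun h' => h (e3.1 h'), if_neg h]
  rw [e1, e2]

end

/-- **PeK.** -/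
theorem tPeK (h1 : S_Prim) : S_PeK := by
  intro K _ _ p hp _ i
  refine ⟨fun a b => ?_, fun a b => ?_⟩
  · unfold beK
    rw [PeK_NP h1 p hp]
  · unfold nuK
    rw [PeK_NP h1 p hp]

end MP7ed9c3.Pz
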