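import Pool.Agent.Lib.MP_7ed9c3_nt.Pz.SpecH

/-!
# MP_7ed9c3_nt, part Pz, module PsB: size of the correction
-/

set_option autoImplicit false

namespace MP7ed9c3.Pz

open NumberField IsDedekindDomain MP7ed9c3 MP7ed9c3.Tw MP7ed9c3.Tz

private theorem PsB_pow (q : ℕ) (hq : 1 ≤ q) (s : ℂ) (hs : 9 / 10 ≤ s.re) :
    ‖(q : ℂ) ^ (-s)‖ ≤ (q : ℝ) ^ (-(9 / 10) : ℝ) := by
  rw [Complex.norm_natCast_cpow_of_pos hq, Complex.neg_re]
  exact Real.rpow_le_rpow_of_exponent_le (by exact_mod_cast hq) (by linarith)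

private theorem PsB_sq (q : ℕ) (hq : 1 ≤ q) :
    √(q : ℝ) * (q : ℝ) ^ (-(9 / 10) : ℝ) = (q : ℝ) ^ (-(2 / 5) : ℝ) := by
  have h : (0 : ℝ) < q := by exact_mod_cast hq
  rw [Real.sqrt_eq_rpow, ← Real.rpow_add h]
  norm_num

private theorem PsB_small (q : ℕ) (hq : 5 ≤ q) : (q : ℝ) ^ (-(2 / 5) : ℝ) ≤ 3 / 5 := by
  have h : (5 : ℝ) ≤ q := by exact_mod_cast hq
  have h0 : (0 : ℝ) < q := by linarith
  have h5 : ((q : ℝ) ^ (-(2 / 5) : ℝ)) ^ 5 = (q : ℝ) ^ (-2 : ℝ) := by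
    rw [← Real.rpow_natCast, ← Real.rpow_mul h0.le]
    norm_num
  have h6 : (q : ℝ) ^ (-2 : ℝ) ≤ 1 / 25 := by
    rw [Real.rpow_neg h0.le, show (2 : ℝ) = ((2 : ℕ) : ℝ) by norm_num, Real.rpow_natCast,
      ← one_div]
    refine one_div_le_one_div_of_le (by norm_num) ?_
    nlinarith
  by_contra hc
  rw [not_le] at hc
  have h7 : (3 / 5 : ℝ) ^ 5 < ((q : ℝ) ^ (-(2 / 5) : ℝ)) ^ 5 :=
    pow_lt_pow_left₀ hc (by norm_num) (by norm_num)
  rw [h5] at h7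
  have h8 : (1 / 25 : ℝ) < (3 / 5) ^ 5 := by norm_num
  linarith

private theorem PsB_one (z : ℂ) (y : ℝ) (h : ‖z‖ ≤ y) : ‖1 - z‖ ≤ Real.exp y := by
  have h1 := norm_sub_le (1 : ℂ) z
  rw [norm_one] at h1
  linarith [Real.add_one_le_exp y]

private theorem PsB_inv (z : ℂ) (y : ℝ) (h : ‖z‖ ≤ y) (hy : y ≤ 3 / 5) :
    ‖(1 - z)⁻¹‖ ≤ Real.exp (5 / 2 * y) := by
  have h0 : 0 ≤ y := (norm_nonneg _).trans h
  have h1 : 1 - y ≤ ‖1 - z‖ := by
    have h2 := norm_sub_norm_le (1 : ℂ) z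
    rw [norm_one] at h2
    linarith
  rw [norm_inv]
  have h2 : 0 < 1 - y := by linarith
  have h3 : ‖1 - z‖⁻¹ ≤ (1 - y)⁻¹ := inv_anti₀ h2 h1
  have h4 : (1 - y)⁻¹ ≤ 1 + 5 / 2 * y := by
    rw [inv_eq_one_div, div_le_iff₀ h2]
    nlinarith
  linarith [Real.add_one_le_exp (5 / 2 * y)]

private theorem PsB_num (q : ℕ) (hq : 1 ≤ q) (s : ℂ) (hs : 9 / 10 ≤ s.re) (α : ℂ)
    (h : ‖α‖ ≤ √(q : ℝ)) : ‖α * (q : ℂ) ^ (-s)‖ ≤ (q : ℝ) ^ (-(2 / 5) : ℝ) := by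
  rw [norm_mul, ← PsB_sq q hq]
  exact mul_le_mul h (PsB_pow q hq s hs) (norm_nonneg _) (Real.sqrt_nonneg _)

private theorem PsB_big (q : ℕ) (hq : 1 ≤ q) (s : ℂ) (hs : 9 / 10 ≤ s.re) (α : ℂ)
    (h : ‖α‖ ≤ max (√(q : ℝ)) (q - 1)) : ‖α * (q : ℂ) ^ (-s)‖ ≤ q := by
  have h1 : (1 : ℝ) ≤ q := by exact_mod_cast hq
  have h2 : ‖α‖ ≤ q := h.trans (max_le (Real.sqrt_le_iff.2 ⟨by linarith, by nlinarith⟩) (by linarith))
  have h3 : (q : ℝ) ^ (-(9 / 10) : ℝ) ≤ 1 :=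
    Real.rpow_le_one_of_one_le_of_nonpos h1 (by norm_num)
  rw [norm_mul]
  calc ‖α‖ * ‖(q : ℂ) ^ (-s)‖ ≤ q * 1 :=
        mul_le_mul h2 ((PsB_pow q hq s hs).trans h3) (norm_nonneg _) (by linarith)
    _ = q := mul_one _

private theorem PsB_B (n : ℝ) (η : ℝ) (hη : 0 < η) (hn : 0 ≤ n) :
    ∃ B : ℕ, 1 ≤ B ∧ 42 * n * (B : ℝ) ^ (-(2 / 5) : ℝ) ≤ η := by
  have h1 : Filter.Tendsto (fun B : ℕ => (B : ℝ) ^ (-(2 / 5) : ℝ)) Filter.atTop (nhds 0) :=
    (tendsto_rpow_neg_atTop (by norm_num : (0 : ℝ) < 2 / 5)).comp tendsto_natCast_atTop_atTop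
  have h2 : 0 < η / (42 * n + 1) := by positivity
  obtain ⟨B, h3, h4⟩ := ((h1.eventually_lt_const h2).and (Filter.eventually_ge_atTop 1)).exists
  refine ⟨B, h4, ?_⟩
  rw [lt_div_iff₀ (by positivity)] at h3
  have h5 : 0 ≤ (B : ℝ) ^ (-(2 / 5) : ℝ) := Real.rpow_nonneg (Nat.cast_nonneg _) _
  nlinarith

section
variable {K : Type} [Field K] [NumberField K]

private theorem PsB_two (v : HeightOneSpectrum (𝓞 K)) : 2 ≤ nm v := (N1.exists_prime v).1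

private theorem PsB_five (v : HeightOneSpectrum (𝓞 K)) (h6 : (6 : 𝓞 K) ∉ v.asIdeal) :
    5 ≤ nm v := by
  obtain ⟨-, p, hp, hle, hm⟩ := N1.exists_prime v
  have h2 : p ≠ 2 := by
    rintro rfl
    apply h6
    have h := v.asIdeal.mul_mem_left (3 : 𝓞 K) hm
    have e : (3 : 𝓞 K) * ((2 : ℕ) : 𝓞 K) = 6 := by norm_num
    rwa [e] at h
  have h3 : p ≠ 3 := by
    rintro rfl
    apply h6
    have h := v.asIdeal.mul_mem_left (2 : 𝓞 K) hm
    have e : (2 : 𝓞 K) * ((3 : ℕ) : 𝓞 K) = 6 := by norm_num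
    rwa [e] at h
  have h4 : p ≠ 4 := by
    rintro rfl
    revert hp
    decide
  have h5 := hp.two_le
  omega

private theorem PsB_fin (B : ℕ) : {v : HeightOneSpectrum (𝓞 K) | nm v ≤ B}.Finite := by
  refine (Set.Finite.biUnion (Set.finite_Iic B) (fun m _ => fin_nm K m)).subset ?_
  intro v hv
  simp only [Set.mem_iUnion]
  exact ⟨nm v, hv, rfl⟩

private theorem PsB_house (a : Ix K ⊕ Ix K → ℤ) (Y : ℝ) (hY : 1 ≤ Y)
    (hA : House (pt (fun i => a (Sum.inl i))) Y) (hB : House (pt (fun i => a (Sum.inr i))) Y) :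
    House (dK a) (186 * Y ^ 3) := by
  intro φ
  have h1 := hA φ
  have h2 := hB φ
  have e : φ ((dK a : 𝓞 K) : K) =
      6 * (4 * φ ((pt (fun i => a (Sum.inl i)) : 𝓞 K) : K) ^ 3 +
        27 * φ ((pt (fun i => a (Sum.inr i)) : 𝓞 K) : K) ^ 2) := by
    unfold dK
    simp only [map_mul, map_add, map_pow, map_ofNat]
  rw [e]
  set x := φ ((pt (fun i => a (Sum.inl i)) : 𝓞 K) : K)
  set y := φ ((pt (fun i => a (Sum.inr i)) : 𝓞 K) : K)
  have h3 : ‖6 * (4 * x ^ 3 + 27 * y ^ 2)‖ ≤ 6 * (4 * ‖x‖ ^ 3 + 27 * ‖y‖ ^ 2) := by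
    rw [norm_mul, Complex.norm_ofNat]
    refine mul_le_mul_of_nonneg_left ((norm_add_le _ _).trans_eq ?_) (by norm_num)
    rw [norm_mul, norm_mul, norm_pow, norm_pow, Complex.norm_ofNat, Complex.norm_ofNat]
  have h4 : ‖x‖ ^ 3 ≤ Y ^ 3 := pow_le_pow_left₀ (norm_nonneg _) h1 3
  have h5 : ‖y‖ ^ 2 ≤ Y ^ 2 := pow_le_pow_left₀ (norm_nonneg _) h2 2
  have h6 : Y ^ 2 ≤ Y ^ 3 := pow_le_pow_right₀ hY (by norm_num)
  linarith

open Classical in
private theorem PsB_term (hL : S_Loc) (a : Ix K ⊕ Ix K → ℤ)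
    (M : HeightOneSpectrum (𝓞 K) → WeierstrassCurve (𝓞 K)) (s : ℂ) (hs : 9 / 10 ≤ s.re)
    (v : HeightOneSpectrum (𝓞 K)) :
    ‖locDen (M v) v s * gK a s v‖ ≤
      Real.exp ((if (6 : 𝓞 K) ∈ v.asIdeal then 2 * (nm v : ℝ) else 0) +
        7 * (nm v : ℝ) ^ (-(2 / 5) : ℝ)) := by
  obtain ⟨α, β, e1, e2, e3, -⟩ := hL K M
  obtain ⟨α', β', e1', -, e3', -⟩ := hL K (fun _ => sw a)
  have hq : 1 ≤ nm v := by
    have := PsB_two v
    omega
  have hy : 0 ≤ (nm v : ℝ) ^ (-(2 / 5) : ℝ) := Real.rpow_nonneg (Nat.cast_nonneg _) _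
  rw [norm_mul, e1 v s, norm_mul]
  by_cases h6 : (6 : 𝓞 K) ∈ v.asIdeal
  · have hg : gK a s v = 1 := by
      unfold gK
      rw [if_pos h6]
    rw [hg, norm_one, mul_one, if_pos h6]
    have b1 := PsB_one _ _ (PsB_big (nm v) hq s hs (α v) (e2 v).1)
    have b2 := PsB_one _ _ (PsB_big (nm v) hq s hs (β v) (e2 v).2)
    calc ‖1 - α v * (nm v : ℂ) ^ (-s)‖ * ‖1 - β v * (nm v : ℂ) ^ (-s)‖
        ≤ Real.exp (nm v) * Real.exp (nm v) :=
          mul_le_mul b1 b2 (norm_nonneg _) (Real.exp_pos _).le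
      _ = Real.exp (2 * (nm v : ℝ)) := by
          rw [← Real.exp_add]
          ring_nf
      _ ≤ _ := Real.exp_le_exp.2 (by linarith)
  · have hg : gK a s v = (1 - α' v * (nm v : ℂ) ^ (-s))⁻¹ * (1 - β' v * (nm v : ℂ) ^ (-s))⁻¹ := by
      unfold gK
      rw [if_neg h6]
      have e := e1' v s
      rw [show locDen (sw a) v s = _ from e, mul_inv]
    have h5 := PsB_small (nm v) (PsB_five v h6)
    rw [hg, norm_mul, if_neg h6, zero_add]
    have b1 := PsB_one _ _ (PsB_num (nm v) hq s hs (α v) (e3 v h6).1)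
    have b2 := PsB_one _ _ (PsB_num (nm v) hq s hs (β v) (e3 v h6).2)
    have b3 := PsB_inv _ _ (PsB_num (nm v) hq s hs (α' v) (e3' v h6).1) h5
    have b4 := PsB_inv _ _ (PsB_num (nm v) hq s hs (β' v) (e3' v h6).2) h5
    generalize (nm v : ℝ) ^ (-(2 / 5) : ℝ) = y at *
    calc _ ≤ (Real.exp y * Real.exp y) * (Real.exp (5 / 2 * y) * Real.exp (5 / 2 * y)) := by
          gcongr
      _ = Real.exp (7 * y) := by
          rw [← Real.exp_add, ← Real.exp_add, ← Real.exp_add]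
          ring_nf

end

theorem tPsB (hL : S_Loc) (hD : S_Div) : S_PsB := by
  classical
  intro K _ _ η hη
  have h6 : (6 : 𝓞 K) ≠ 0 := by norm_num
  obtain ⟨B, hB1, hB⟩ := PsB_B (Module.finrank ℚ K) η hη (Nat.cast_nonneg _)
  refine ⟨Real.exp ((∑ v ∈ (N5.finite_mem h6).toFinset, 2 * (nm v : ℝ)) +
    7 * ((PsB_fin (K := K) B).toFinset.card : ℝ) + 14 * Module.finrank ℚ K * Real.log 186),
    Real.exp_pos _, ?_⟩
  intro Y a M T hY hA hBB hne hT s hs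
  have hY0 : 0 < Y := by linarith
  have hlY : 0 ≤ Real.log Y := Real.log_nonneg hY
  have hl6 : 0 ≤ Real.log 186 := Real.log_nonneg (by norm_num)
  have hd : dK a ≠ 0 := mul_ne_zero h6 hne
  -- the number of elements of `T`
  have hY3 : 1 ≤ Y ^ 3 := one_le_pow₀ hY
  have hcard : (T.card : ℝ) ≤ 2 * Module.finrank ℚ K * (Real.log 186 + 3 * Real.log Y) := by
    have h1 := (hD K (dK a) (186 * Y ^ 3) hd (by linarith) (PsB_house a Y hY hA hBB)).2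
    have h2 : {v : HeightOneSpectrum (𝓞 K) | dK a ∈ v.asIdeal} = (T : Set _) := by
      ext v
      exact (hT v).symm
    rw [h2, Set.ncard_coe_finset, Real.log_mul (by norm_num) (by positivity), Real.log_pow] at h1
    exact_mod_cast h1
  have hprod : ‖PsiK a M T s‖ ≤ Real.exp (∑ v ∈ T,
      ((if (6 : 𝓞 K) ∈ v.asIdeal then 2 * (nm v : ℝ) else 0) +
        7 * (nm v : ℝ) ^ (-(2 / 5) : ℝ))) := by
    unfold PsiK
    rw [norm_prod, Real.exp_sum]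
    exact Finset.prod_le_prod (fun _ _ => norm_nonneg _) (fun v _ => PsB_term hL a M s hs v)
  have hs1 : ∑ v ∈ T, (if (6 : 𝓞 K) ∈ v.asIdeal then 2 * (nm v : ℝ) else 0) ≤
      ∑ v ∈ (N5.finite_mem h6).toFinset, 2 * (nm v : ℝ) := by
    rw [← Finset.sum_filter]
    refine Finset.sum_le_sum_of_subset_of_nonneg ?_ (fun v _ _ => by positivity)
    intro v hv
    rw [Set.Finite.mem_toFinset]
    exact (Finset.mem_filter.1 hv).2
  have hb0 : 0 ≤ (B : ℝ) ^ (-(2 / 5) : ℝ) := Real.rpow_nonneg (Nat.cast_nonneg _) _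
  have hb1 : (B : ℝ) ^ (-(2 / 5) : ℝ) ≤ 1 :=
    Real.rpow_le_one_of_one_le_of_nonpos (by exact_mod_cast hB1) (by norm_num)
  have hs2 : ∑ v ∈ T, (nm v : ℝ) ^ (-(2 / 5) : ℝ) ≤
      ((PsB_fin (K := K) B).toFinset.card : ℝ) + T.card * (B : ℝ) ^ (-(2 / 5) : ℝ) := by
    have h1 : ∀ v ∈ T, (nm v : ℝ) ^ (-(2 / 5) : ℝ) ≤
        (if v ∈ (PsB_fin (K := K) B).toFinset then 1 else 0) + (B : ℝ) ^ (-(2 / 5) : ℝ) := by
      intro v _
      by_cases hv : v ∈ (PsB_fin (K := K) B).toFinset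
      · rw [if_pos hv]
        have h2 : (nm v : ℝ) ^ (-(2 / 5) : ℝ) ≤ 1 :=
          Real.rpow_le_one_of_one_le_of_nonpos
            (by
              have := PsB_two v
              exact_mod_cast (by omega : 1 ≤ nm v)) (by norm_num)
        linarith
      · rw [if_neg hv, zero_add]
        rw [Set.Finite.mem_toFinset] at hv
        have h3 : B ≤ nm v := by
          by_contra h
          exact hv (show nm v ≤ B by omega)
        exact Real.rpow_le_rpow_of_nonpos (by exact_mod_cast hB1) (by exact_mod_cast h3)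
          (by norm_num)
    refine (Finset.sum_le_sum h1).trans ?_
    rw [Finset.sum_add_distrib, Finset.sum_boole, Finset.sum_const, nsmul_eq_mul]
    have h4 : ((T.filter (fun v => v ∈ (PsB_fin (K := K) B).toFinset)).card : ℝ) ≤
        (PsB_fin (K := K) B).toFinset.card := by
      exact_mod_cast Finset.card_le_card (fun v hv => (Finset.mem_filter.1 hv).2)
    linarith
  have hY' : Y ^ η = Real.exp (η * Real.log Y) := by
    rw [Real.rpow_def_of_pos hY0, mul_comm]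
  refine hprod.trans ?_
  rw [hY', ← Real.exp_add]
  refine Real.exp_le_exp.2 ?_
  rw [Finset.sum_add_distrib, ← Finset.mul_sum]
  have hn0 : (0 : ℝ) ≤ Module.finrank ℚ K := Nat.cast_nonneg _
  have h7 : (T.card : ℝ) * (B : ℝ) ^ (-(2 / 5) : ℝ) ≤
      2 * Module.finrank ℚ K * Real.log 186 +
        6 * Module.finrank ℚ K * (B : ℝ) ^ (-(2 / 5) : ℝ) * Real.log Y := by
    calc (T.card : ℝ) * (B : ℝ) ^ (-(2 / 5) : ℝ)
        ≤ (2 * Module.finrank ℚ K * (Real.log 186 + 3 * Real.log Y)) *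
            (B : ℝ) ^ (-(2 / 5) : ℝ) := mul_le_mul_of_nonneg_right hcard hb0
      _ = 2 * Module.finrank ℚ K * Real.log 186 * (B : ℝ) ^ (-(2 / 5) : ℝ) +
          6 * Module.finrank ℚ K * (B : ℝ) ^ (-(2 / 5) : ℝ) * Real.log Y := by ring
      _ ≤ _ := by
          have h8 : 2 * Module.finrank ℚ K * Real.log 186 * (B : ℝ) ^ (-(2 / 5) : ℝ) ≤
              2 * Module.finrank ℚ K * Real.log 186 * 1 :=
            mul_le_mul_of_nonneg_left hb1 (by positivity)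
          linarith
  have h9 : 42 * Module.finrank ℚ K * (B : ℝ) ^ (-(2 / 5) : ℝ) * Real.log Y ≤ η * Real.log Y :=
    mul_le_mul_of_nonneg_right hB hlY
  linarith

end MP7ed9c3.Pz
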