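import Pool.Agent.Lib.MP_7ed9c3_nt.Pz.SpecH

/-!
MP_7ed9c3_nt, part Pz, module PsC (helper56): changing finitely many Euler factors.
-/

set_option autoImplicit false

namespace MP7ed9c3.Pz

open NumberField IsDedekindDomain MP7ed9c3 MP7ed9c3.Tw MP7ed9c3.Tz

private lemma PsC_short {R : Type} [CommRing R] (A B : R) :
    (short A B).Δ = -(16 * (4 * A ^ 3 + 27 * B ^ 2)) := by
  simp only [short, WeierstrassCurve.Δ, WeierstrassCurve.b₂, WeierstrassCurve.b₄,
    WeierstrassCurve.b₆, WeierstrassCurve.b₈]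
  ring

private lemma PsC_Δ {K : Type} [Field K] [NumberField K] (a : Ix K ⊕ Ix K → ℤ)
    (v : HeightOneSpectrum (𝓞 K)) (h : dK a ∉ v.asIdeal) : (sw a).Δ ∉ v.asIdeal := by
  have hp := v.isPrime
  intro hΔ
  unfold sw at hΔ
  rw [PsC_short] at hΔ
  apply h
  unfold dK
  set A := pt (fun i => a (Sum.inl i)) with hA
  set B := pt (fun i => a (Sum.inr i)) with hB
  have h2 : (2 : 𝓞 K) ∉ v.asIdeal := by
    intro h2
    apply h
    unfold dK
    rw [← hA, ← hB, show (6 : 𝓞 K) * (4 * A ^ 3 + 27 * B ^ 2) = 2 * (3 * (4 * A ^ 3 + 27 * B ^ 2)) by ring]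
    exact Ideal.mul_mem_right _ _ h2
  have h16 : (16 : 𝓞 K) ∉ v.asIdeal := by
    intro h16
    rw [show (16 : 𝓞 K) = 2 ^ 4 by norm_num] at h16
    exact h2 (hp.mem_of_pow_mem 4 h16)
  have h3 : (16 : 𝓞 K) * (4 * A ^ 3 + 27 * B ^ 2) ∈ v.asIdeal := by
    have h4 := v.asIdeal.neg_mem hΔ
    rw [neg_neg] at h4
    exact h4
  rcases hp.mem_or_mem h3 with h4 | h4
  · exact absurd h4 h16
  · exact Ideal.mul_mem_left _ _ h4

theorem tPsC (h1 : S_Mul) (h2 : S_TrGood) : S_PsC := by
  classical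
  intro K _ _ a M T hT hM s hs
  obtain ⟨hf, _, _, hmul⟩ := h1 K M s hs.ge
  have hfp := hmul.hasProd
  have hh : HasProd (fun v => if v ∈ T then locDen (M v) v s * gK a s v else 1) (PsiK a M T s) := by
    have e : PsiK a M T s =
        ∏ v ∈ T, (fun v => if v ∈ T then locDen (M v) v s * gK a s v else 1) v := by
      unfold PsiK
      apply Finset.prod_congr rfl
      intro v hv
      simp only [if_pos hv]
    rw [e]
    apply hasProd_prod_of_ne_finset_one
    intro v hv
    simp only [if_neg hv]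
  have hm := hfp.mul hh
  rw [← hm.tprod_eq]
  apply tprod_congr
  intro v
  by_cases hv : v ∈ T
  · simp only [if_pos hv]
    rw [← mul_assoc, inv_mul_cancel₀ (hf v).2.1, one_mul]
  · simp only [if_neg hv, mul_one]
    have hd : dK a ∉ v.asIdeal := fun h => hv ((hT v).2 h)
    have h6 : (6 : 𝓞 K) ∉ v.asIdeal := by
      intro h6
      apply hd
      unfold dK
      exact Ideal.mul_mem_right _ _ h6
    have hΔ := PsC_Δ a v hd
    obtain ⟨g1, g2⟩ := (h2 K (pt (fun i => a (Sum.inl i))) (pt (fun i => a (Sum.inr i))) v (M v) hd).1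
      (hM v)
    have g3 : tr (M v) v = tr (sw a) v := by
      exact_mod_cast g2
    unfold gK
    rw [if_neg h6]
    congr 1
    unfold locDen eden
    rw [g3]
    simp only [g1, hΔ, not_false_eq_true, if_true]

end MP7ed9c3.Pz
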