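import Pool.Agent.Lib.MP_7ed9c3_nt.Pz.SpecH

set_option autoImplicit false

namespace MP7ed9c3.Pz

open NumberField IsDedekindDomain MP7ed9c3 MP7ed9c3.Tw MP7ed9c3.Tz

private lemma PsD_two_le {K : Type} [Field K] [NumberField K] (v : HeightOneSpectrum (𝓞 K)) :
    2 ≤ nm v := by
  unfold nm
  have h0 : Ideal.absNorm v.asIdeal ≠ 0 := by
    rw [Ne, Ideal.absNorm_eq_zero_iff]
    exact v.ne_bot
  have h1 : Ideal.absNorm v.asIdeal ≠ 1 := by
    rw [Ne, Ideal.absNorm_eq_one_iff]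
    exact v.isPrime.ne_top
  omega

private lemma PsD_diff {K : Type} [Field K] [NumberField K] (hL : S_Loc)
    (M : HeightOneSpectrum (𝓞 K) → WeierstrassCurve (𝓞 K)) (v : HeightOneSpectrum (𝓞 K)) :
    Differentiable ℂ (fun s => locDen (M v) v s) := by
  obtain ⟨α, β, h1, _, _, _⟩ := hL K M
  have hq : (nm v : ℂ) ≠ 0 := by
    have := PsD_two_le v
    exact_mod_cast (by omega : nm v ≠ 0)
  have he : (fun s => locDen (M v) v s) =
      fun s => (1 - α v * (nm v : ℂ) ^ (-s)) * (1 - β v * (nm v : ℂ) ^ (-s)) := by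
    funext s
    exact h1 v s
  rw [he]
  have hp : Differentiable ℂ (fun s : ℂ => (nm v : ℂ) ^ (-s)) := by
    intro s
    exact (differentiableAt_id.neg).const_cpow (Or.inl hq)
  exact ((differentiable_const _).fun_sub ((differentiable_const _).fun_mul hp)).fun_mul
    ((differentiable_const _).fun_sub ((differentiable_const _).fun_mul hp))

private lemma PsD_one_sub {q : ℕ} (hq : 2 ≤ q) (z s : ℂ) (hz : ‖z‖ ≤ √(q : ℝ)) (hs : 1 / 2 < s.re) :
    1 - z * (q : ℂ) ^ (-s) ≠ 0 := by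
  intro h
  have hq1 : (1 : ℝ) < q := by exact_mod_cast (by omega : 1 < q)
  have hq0 : (0 : ℝ) < q := by linarith
  have h1 : z * (q : ℂ) ^ (-s) = 1 := (sub_eq_zero.1 h).symm
  have h2 : ‖z * (q : ℂ) ^ (-s)‖ = 1 := by rw [h1, norm_one]
  rw [norm_mul, Complex.norm_natCast_cpow_of_pos (by omega)] at h2
  have h3 : (q : ℝ) ^ (-s).re < (q : ℝ) ^ (-(1 / 2 : ℝ)) := by
    refine Real.rpow_lt_rpow_of_exponent_lt hq1 ?_
    rw [Complex.neg_re]
    linarith
  have h4 : (0 : ℝ) < (q : ℝ) ^ (-s).re := Real.rpow_pos_of_pos hq0 _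
  have h5 : √(q : ℝ) * (q : ℝ) ^ (-(1 / 2 : ℝ)) = 1 := by
    rw [Real.sqrt_eq_rpow, ← Real.rpow_add hq0]
    norm_num
  have h6 : 0 < √(q : ℝ) := Real.sqrt_pos.2 hq0
  have h7 : ‖z‖ * (q : ℝ) ^ (-s).re ≤ √(q : ℝ) * (q : ℝ) ^ (-s).re :=
    mul_le_mul_of_nonneg_right hz h4.le
  have h8 : √(q : ℝ) * (q : ℝ) ^ (-s).re < √(q : ℝ) * (q : ℝ) ^ (-(1 / 2 : ℝ)) :=
    mul_lt_mul_of_pos_left h3 h6
  linarith

private lemma PsD_g {K : Type} [Field K] [NumberField K] (hL : S_Loc)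
    (a : Ix K ⊕ Ix K → ℤ) (v : HeightOneSpectrum (𝓞 K)) :
    DifferentiableOn ℂ (fun s => gK a s v) {s : ℂ | 1 / 2 < s.re} := by
  unfold gK
  by_cases h6 : (6 : 𝓞 K) ∈ v.asIdeal
  · simp only [h6, if_true]
    exact differentiableOn_const _
  · simp only [h6, if_false]
    obtain ⟨α, β, h1, _, h3, _⟩ := hL K (fun _ => sw a)
    refine DifferentiableOn.fun_inv (PsD_diff hL (fun _ => sw a) v).differentiableOn ?_
    intro s hs
    have hs' : 1 / 2 < s.re := hs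
    have h2 := h1 v s
    rw [h2]
    exact mul_ne_zero (PsD_one_sub (PsD_two_le v) _ _ (h3 v h6).1 hs')
      (PsD_one_sub (PsD_two_le v) _ _ (h3 v h6).2 hs')

theorem tPsD (hL : S_Loc) : S_PsD := by
  intro K _ _ a M T
  unfold PsiK
  refine DifferentiableOn.fun_finsetProd ?_
  intro v _
  exact (PsD_diff hL M v).differentiableOn.fun_mul (PsD_g hL a v)

end MP7ed9c3.Pz
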