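import Pool.Agent.Lib.MP_7ed9c3_nt.Pz.SpecH

/-!
# MP_7ed9c3_nt, part Pz, module Reg: regrouping an infinite product over the prime numbers
-/

set_option autoImplicit false

namespace MP7ed9c3.Pz

open NumberField IsDedekindDomain MP7ed9c3 MP7ed9c3.Tw MP7ed9c3.Tz

private theorem Reg_ex {K : Type} [Field K] [NumberField K] (v : HeightOneSpectrum (𝓞 K)) :
    ∃ p : ℕ, p.Prime ∧ ((p : ℕ) : 𝓞 K) ∈ v.asIdeal := by
  classical
  haveI : v.asIdeal.IsMaximal := v.isMaximal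
  letI : Field (𝓞 K ⧸ v.asIdeal) := Ideal.Quotient.field v.asIdeal
  have h0 : Ideal.absNorm v.asIdeal ≠ 0 := by
    rw [Ne, Ideal.absNorm_eq_zero_iff]
    exact v.ne_bot
  have hc : Ideal.absNorm v.asIdeal = Nat.card (𝓞 K ⧸ v.asIdeal) := by
    rw [Ideal.absNorm_apply, Submodule.cardQuot_apply]
  haveI : Finite (𝓞 K ⧸ v.asIdeal) := Nat.finite_of_card_ne_zero (by rw [← hc]; exact h0)
  letI : Fintype (𝓞 K ⧸ v.asIdeal) := Fintype.ofFinite _
  have hpp : IsPrimePow (Ideal.absNorm v.asIdeal) := by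
    rw [hc, Nat.card_eq_fintype_card]
    exact Fintype.isPrimePow_card_of_field
  obtain ⟨p, f, hp, hf, hpf⟩ := (isPrimePow_nat_iff _).mp hpp
  refine ⟨p, hp, ?_⟩
  have hmem : ((Ideal.absNorm v.asIdeal : ℕ) : 𝓞 K) ∈ v.asIdeal := Ideal.absNorm_mem v.asIdeal
  rw [← hpf, Nat.cast_pow] at hmem
  exact v.isPrime.mem_of_pow_mem f hmem

private theorem Reg_uniq {K : Type} [Field K] [NumberField K] (v : HeightOneSpectrum (𝓞 K))
    {p q : ℕ} (hp : p.Prime) (hq : q.Prime) (h1 : ((p : ℕ) : 𝓞 K) ∈ v.asIdeal)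
    (h2 : ((q : ℕ) : 𝓞 K) ∈ v.asIdeal) : p = q := by
  by_contra hne
  have hc : IsCoprime (p : ℤ) (q : ℤ) :=
    Nat.isCoprime_iff_coprime.mpr ((Nat.coprime_primes hp hq).mpr hne)
  obtain ⟨a, b, hab⟩ := hc
  apply v.isPrime.ne_top
  rw [Ideal.eq_top_iff_one]
  have h3 : (1 : 𝓞 K) = (a : 𝓞 K) * (p : 𝓞 K) + (b : 𝓞 K) * (q : 𝓞 K) := by
    have h4 := congrArg (Int.cast : ℤ → 𝓞 K) hab
    push_cast at h4
    exact h4.symm
  rw [h3]
  exact v.asIdeal.add_mem (v.asIdeal.mul_mem_left _ h1) (v.asIdeal.mul_mem_left _ h2)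

theorem tReg (h1 : S_Prim) : S_Reg := by
  intro K _ _ g hg
  have hb : Function.Bijective
      (fun x : (Σ p : Nat.Primes, {v : HeightOneSpectrum (𝓞 K) // v ∈ Ov K (p : ℕ)}) =>
        (x.2 : HeightOneSpectrum (𝓞 K))) := by
    constructor
    · rintro ⟨p, v, hv⟩ ⟨q, w, hw⟩ h
      have h2 : v = w := h
      subst h2
      have h3 : p = q := Subtype.ext (Reg_uniq v p.2 q.2 (((h1 K p p.2).1 v).1 hv)
        (((h1 K q q.2).1 v).1 hw))
      subst h3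
      rfl
    · intro v
      obtain ⟨p, hp, hmem⟩ := Reg_ex v
      exact ⟨⟨⟨p, hp⟩, v, ((h1 K p hp).1 v).2 hmem⟩, rfl⟩
  have h2 := (Equiv.hasProd_iff (Equiv.ofBijective _ hb)).mpr hg.hasProd
  refine h2.sigma fun p => ?_
  have h3 := hasProd_fintype (fun c : {v : HeightOneSpectrum (𝓞 K) // v ∈ Ov K (p : ℕ)} => g c)
  rw [Finset.prod_coe_sort (Ov K (p : ℕ)) g] at h3
  exact h3

end MP7ed9c3.Pz
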