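import Pool.Agent.Lib.MP_7ed9c3_nt.Pz.SpecH

/-!
# MP_7ed9c3_nt, part Pz, module Rig: the Euler product is close to 1 far to the right
-/

set_option autoImplicit false

namespace MP7ed9c3.Pz

open NumberField IsDedekindDomain MP7ed9c3 MP7ed9c3.Tw MP7ed9c3.Tz

private theorem Rig_exp (y : ℝ) : Real.exp y - 1 ≤ y * Real.exp y := by
  have h1 := Real.one_sub_le_exp_neg y
  have h2 := mul_le_mul_of_nonneg_right h1 (Real.exp_pos y).le
  rw [← Real.exp_add, neg_add_cancel, Real.exp_zero] at h2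
  linarith

theorem tRig (h1 : S_Mul) : S_Rig := by
  intro K _ _
  have hsum : Summable (fun v : HeightOneSpectrum (𝓞 K) => (nm v : ℝ) ^ (-(2 : ℝ))) :=
    (h1 K (fun _ => ⟨0, 0, 0, 0, 0⟩) 3 (by norm_num)).2.1
  set S : ℝ := ∑' v : HeightOneSpectrum (𝓞 K), (nm v : ℝ) ^ (-(2 : ℝ)) with hS
  have hS0 : 0 ≤ S := tsum_nonneg fun v => by positivity
  refine ⟨32 * S * Real.exp (32 * S) + 1, by positivity, ?_⟩
  intro M s hs
  obtain ⟨hv, -, -, hmul⟩ := h1 K M s hs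
  set y : ℝ := 32 * S * (2 : ℝ) ^ (-s.re) with hy
  have h2pos : (0 : ℝ) < (2 : ℝ) ^ (-s.re) := by positivity
  have h2le : (2 : ℝ) ^ (-s.re) ≤ 1 := by
    apply Real.rpow_le_one_of_one_le_of_nonpos (by norm_num)
    linarith
  have hu : ∀ v : HeightOneSpectrum (𝓞 K), ‖(locDen (M v) v s)⁻¹ - 1‖ ≤
      32 * (2 : ℝ) ^ (-s.re) * (nm v : ℝ) ^ (-(2 : ℝ)) := by
    intro v
    obtain ⟨hn, -, hb⟩ := hv v
    have hn' : (2 : ℝ) ≤ nm v := by exact_mod_cast hn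
    have hn0 : (0 : ℝ) < nm v := by linarith
    refine hb.trans ?_
    have e1 : (nm v : ℝ) ^ (1 - s.re) = (nm v : ℝ) ^ (-(2 : ℝ)) * (nm v : ℝ) ^ (3 - s.re) := by
      rw [← Real.rpow_add hn0]
      congr 1
      ring
    have e2 : (nm v : ℝ) ^ (3 - s.re) ≤ (2 : ℝ) ^ (3 - s.re) :=
      Real.rpow_le_rpow_of_nonpos (by norm_num) hn' (by linarith)
    have e3 : (2 : ℝ) ^ (3 - s.re) = 8 * (2 : ℝ) ^ (-s.re) := by
      rw [show 3 - s.re = 3 + -s.re by ring, Real.rpow_add (by norm_num)]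
      norm_num
    rw [e1]
    rw [e3] at e2
    have e4 : 0 ≤ (nm v : ℝ) ^ (-(2 : ℝ)) := by positivity
    calc 4 * ((nm v : ℝ) ^ (-(2 : ℝ)) * (nm v : ℝ) ^ (3 - s.re))
        ≤ 4 * ((nm v : ℝ) ^ (-(2 : ℝ)) * (8 * (2 : ℝ) ^ (-s.re))) := by gcongr
      _ = 32 * (2 : ℝ) ^ (-s.re) * (nm v : ℝ) ^ (-(2 : ℝ)) := by ring
  have hfin : ∀ t : Finset (HeightOneSpectrum (𝓞 K)),
      ‖∏ v ∈ t, (locDen (M v) v s)⁻¹ - 1‖ ≤ y * Real.exp (32 * S) := by
    intro t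
    have e1 : ∏ v ∈ t, (locDen (M v) v s)⁻¹ = ∏ v ∈ t, (1 + ((locDen (M v) v s)⁻¹ - 1)) := by
      apply Finset.prod_congr rfl
      intro v _
      ring
    rw [e1]
    have e2 : ∑ v ∈ t, ‖(locDen (M v) v s)⁻¹ - 1‖ ≤ y := by
      calc ∑ v ∈ t, ‖(locDen (M v) v s)⁻¹ - 1‖
          ≤ ∑ v ∈ t, 32 * (2 : ℝ) ^ (-s.re) * (nm v : ℝ) ^ (-(2 : ℝ)) :=
            Finset.sum_le_sum fun v _ => hu v
        _ = 32 * (2 : ℝ) ^ (-s.re) * ∑ v ∈ t, (nm v : ℝ) ^ (-(2 : ℝ)) := by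
            rw [Finset.mul_sum]
        _ ≤ 32 * (2 : ℝ) ^ (-s.re) * S := by
            apply mul_le_mul_of_nonneg_left _ (by positivity)
            exact hsum.sum_le_tsum t fun v _ => by positivity
        _ = y := by rw [hy]; ring
    have e3 := Finset.norm_prod_one_add_sub_one_le t (fun v => (locDen (M v) v s)⁻¹ - 1)
    have e4 : y ≤ 32 * S := by
      rw [hy]
      have := mul_le_mul_of_nonneg_left h2le (show 0 ≤ 32 * S by positivity)
      linarith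
    have hy0 : 0 ≤ y := by positivity
    calc ‖∏ v ∈ t, (1 + ((locDen (M v) v s)⁻¹ - 1)) - 1‖
        ≤ Real.exp (∑ v ∈ t, ‖(locDen (M v) v s)⁻¹ - 1‖) - 1 := e3
      _ ≤ Real.exp y - 1 := by
          have := Real.exp_le_exp.2 e2
          linarith
      _ ≤ y * Real.exp y := Rig_exp y
      _ ≤ y * Real.exp (32 * S) := mul_le_mul_of_nonneg_left (Real.exp_le_exp.2 e4) hy0
  have hlim := hmul.hasProd
  have hlim' : Filter.Tendsto (fun t : Finset (HeightOneSpectrum (𝓞 K)) =>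
      ‖∏ v ∈ t, (locDen (M v) v s)⁻¹ - 1‖) Filter.atTop
      (nhds ‖(∏' v : HeightOneSpectrum (𝓞 K), (locDen (M v) v s)⁻¹) - 1‖) := by
    have h3 : Filter.Tendsto (fun t : Finset (HeightOneSpectrum (𝓞 K)) =>
        ∏ v ∈ t, (locDen (M v) v s)⁻¹) Filter.atTop
        (nhds (∏' v : HeightOneSpectrum (𝓞 K), (locDen (M v) v s)⁻¹)) := by
      simpa [HasProd] using hlim
    exact (h3.sub_const 1).norm
  have hle := le_of_tendsto' hlim' hfin
  refine hle.trans ?_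
  rw [hy]
  have e5 : 32 * S * (2 : ℝ) ^ (-s.re) * Real.exp (32 * S) =
      32 * S * Real.exp (32 * S) * (2 : ℝ) ^ (-s.re) := by ring
  rw [e5]
  nlinarith

end MP7ed9c3.Pz
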