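import Pool.Agent.Lib.MP_7ed9c3_nt.Pz.SpecH

/-!
# MP_7ed9c3_nt, part Pz/H, module RtK: roots of the naive local factors
-/

set_option autoImplicit false

namespace MP7ed9c3.Pz

open NumberField IsDedekindDomain MP7ed9c3 MP7ed9c3.Tw MP7ed9c3.Tz

private theorem RtK_prod {K : Type} [Field K] [NumberField K] (a : Ix K ⊕ Ix K → ℤ)
    (v : HeightOneSpectrum (𝓞 K)) (al be : ℂ) (hs : ∀ s : ℂ, locDen (sw a) v s =
      (1 - al * (nm v : ℂ) ^ (-s)) * (1 - be * (nm v : ℂ) ^ (-s)))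
    (hsum : al + be = (tr (sw a) v : ℂ))
    (hg : (sw a).Δ ∉ v.asIdeal → al * be = nm v) : ((gd v a : ℝ) : ℂ) = al * be := by
  unfold gd
  by_cases h : (sw a).Δ ∉ v.asIdeal
  · rw [if_pos h, hg h]
    simp
  · rw [if_neg h]
    have h0 := hs 0
    unfold locDen eden at h0
    rw [if_neg h] at h0
    simp only [neg_zero, Complex.cpow_zero, mul_one, zero_mul, add_zero] at h0
    have h1 : al * be = 0 := by linear_combination hsum - h0
    rw [h1]
    simp

private theorem RtK_sqrt (p f : ℕ) : √((p ^ f : ℕ) : ℝ) = √(p : ℝ) ^ f := by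
  have h : (√(p : ℝ) ^ f) ^ 2 = ((p ^ f : ℕ) : ℝ) := by
    rw [← pow_mul, mul_comm, pow_mul, Real.sq_sqrt (Nat.cast_nonneg _)]
    push_cast
    rfl
  rw [← h, Real.sqrt_sq (pow_nonneg (Real.sqrt_nonneg _) _)]

private theorem RtK_fac (f : ℕ) (t g al be : ℂ) (h1 : t = al + be) (h2 : g = al * be) :
    (1 - PowerSeries.C t * PowerSeries.X ^ f + PowerSeries.C g * PowerSeries.X ^ (2 * f) :
      PowerSeries ℂ) =
      (1 - PowerSeries.C al * PowerSeries.X ^ f) * (1 - PowerSeries.C be * PowerSeries.X ^ f) := by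
  rw [h1, h2, map_add, map_mul, mul_comm 2 f, pow_mul]
  ring

private theorem RtK_not_mem {K : Type} [Field K] [NumberField K] (v : HeightOneSpectrum (𝓞 K))
    (p : ℕ) (hp : ((p : ℕ) : 𝓞 K) ∈ v.asIdeal)
    (m : ℕ) (h : Nat.Coprime m p) : ((m : ℕ) : 𝓞 K) ∉ v.asIdeal := by
  intro hm
  have hc : IsCoprime (m : ℤ) (p : ℤ) := Nat.isCoprime_iff_coprime.2 h
  obtain ⟨a, b, hab⟩ := hc
  apply v.isPrime.ne_top
  rw [Ideal.eq_top_iff_one]
  have h1 : (1 : 𝓞 K) = (a : 𝓞 K) * m + (b : 𝓞 K) * p := by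
    have := congrArg (fun z : ℤ => (z : 𝓞 K)) hab
    push_cast at this
    exact this.symm
  rw [h1]
  exact v.asIdeal.add_mem (v.asIdeal.mul_mem_left _ hm) (v.asIdeal.mul_mem_left _ hp)

theorem tRtK (h1 : S_Loc) (h2 : S_Prim) : S_RtK := by
  intro K _ _ p hp hp3 a
  obtain ⟨al, be, e1, -, e3, e4⟩ := h1 K (fun _ => sw a)
  obtain ⟨q1, -, -, -, q5⟩ := h2 K p hp
  refine ⟨al, be, ?_, ?_⟩
  · unfold NP
    rw [map_prod]
    refine Finset.prod_congr rfl fun v hv => ?_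
    rw [map_add, map_sub, map_one, map_mul, map_mul, map_pow, map_pow, PowerSeries.map_C,
      PowerSeries.map_C, PowerSeries.map_X]
    refine RtK_fac _ _ _ _ _ ?_ ?_
    · rw [(e4 v).1]
      simp only [trp, sw, Complex.ofRealHom_eq_coe]
      push_cast
      rfl
    · exact RtK_prod a v (al v) (be v) (e1 v) (e4 v).1 (e4 v).2
  · intro v hv
    obtain ⟨f, hf1, -, hf⟩ := q5 v hv
    have hfx : fx p v = f := by
      unfold fx
      rw [hf, Nat.log_pow hp.one_lt]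
    have hm := (q1 v).1 hv
    have h6 : (6 : 𝓞 K) ∉ v.asIdeal := by
      have hc : Nat.Coprime 6 p := by
        have c2 : Nat.Coprime 2 p := (Nat.coprime_primes Nat.prime_two hp).2 (by omega)
        have c3 : Nat.Coprime 3 p := (Nat.coprime_primes Nat.prime_three hp).2 (by omega)
        exact Nat.Coprime.mul_left c2 c3
      have := RtK_not_mem v p hm 6 hc
      exact_mod_cast this
    have hs : √(nm v : ℝ) = √(p : ℝ) ^ fx p v := by
      rw [hfx, hf, RtK_sqrt]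
    rw [hfx]
    rw [hfx] at hs
    refine ⟨hf1, hf, ?_, ?_⟩
    · rw [← hs]
      exact (e3 v h6).1
    · rw [← hs]
      exact (e3 v h6).2

end MP7ed9c3.Pz
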