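import Pool.Agent.Lib.MP_7ed9c3_nt.Tz.All
import Pool.Agent.Lib.MP_7ed9c3_nt.Pz.Moll
import Pool.Agent.Lib.MP_7ed9c3_nt.Pz.H.CfB
import Pool.Agent.Lib.MP_7ed9c3_nt.Pz.H.RtK
import Pool.Agent.Lib.MP_7ed9c3_nt.Pz.H.PeK
import Pool.Agent.Lib.MP_7ed9c3_nt.Pz.H.CoK
import Pool.Agent.Lib.MP_7ed9c3_nt.Pz.H.Me0
import Pool.Agent.Lib.MP_7ed9c3_nt.Pz.H.LdK
import Pool.Agent.Lib.MP_7ed9c3_nt.Pz.H.MuB
import Pool.Agent.Lib.MP_7ed9c3_nt.Pz.H.DvB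
import Pool.Agent.Lib.MP_7ed9c3_nt.Pz.H.EuP
import Pool.Agent.Lib.MP_7ed9c3_nt.Pz.H.Inv
import Pool.Agent.Lib.MP_7ed9c3_nt.Pz.H.Mul
import Pool.Agent.Lib.MP_7ed9c3_nt.Pz.H.Reg
import Pool.Agent.Lib.MP_7ed9c3_nt.Pz.H.EuK
import Pool.Agent.Lib.MP_7ed9c3_nt.Pz.H.PsD
import Pool.Agent.Lib.MP_7ed9c3_nt.Pz.H.PsC
import Pool.Agent.Lib.MP_7ed9c3_nt.Pz.H.PsB
import Pool.Agent.Lib.MP_7ed9c3_nt.Pz.H.Rig
import Pool.Agent.Lib.MP_7ed9c3_nt.Pz.H.LocF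

/-!
# MP_7ed9c3_nt, part Pz, H: the three theorems of part H
-/

set_option autoImplicit false

namespace MP7ed9c3.Pz

open NumberField IsDedekindDomain MP7ed9c3 MP7ed9c3.Tw MP7ed9c3.Tz

theorem ldKA : S_LdK := tLdK tCfB (tRtK locA prim) (tPeK prim) (tCoK prim) (tMe0 hom ff) prim

theorem mulA : S_Mul := tMul locA

theorem euKA : S_EuK := tEuK (tEuP tMuB tDvB) (tInv ldKA prim) mulA (tReg prim) ldKA prim

theorem localA : S_Local :=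
  tLocF ldKA (tCoK prim) euKA (tPsD locA) (tPsC mulA trGood) (tPsB locA divs)

theorem mollA : S_Moll := tMoll

theorem rightA : S_Right := tRig mulA

end MP7ed9c3.Pz
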