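import Pool.Agent.Lib.MP_7ed9c3_nt.Pz.SpecH

/-!
# MP_7ed9c3_nt, part Pz, module DcB: size of the coefficients `dco`
-/

set_option autoImplicit false

namespace MP7ed9c3.Pz

open NumberField IsDedekindDomain MP7ed9c3 MP7ed9c3.Tw MP7ed9c3.Tz

theorem tDcB (h1 : S_MuB) (h2 : S_DvB) : S_DcB := by
  intro D
  obtain ⟨C, hC, hdv⟩ := h2 (2 * D + 1)
  refine ⟨C, hC, ?_⟩
  intro ι _ β ν hL z X m a hm
  have hd1 : (1 : ℝ) ≤ (m.divisors.card : ℝ) := by
    have h : 0 < m.divisors.card := Finset.card_pos.2 ⟨1, Nat.one_mem_divisors.2 (by omega)⟩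
    exact_mod_cast h
  have hmain : (m.divisors.card : ℝ) ^ (2 * D + 1) * √(m : ℝ) ≤ C * (m : ℝ) ^ (3 / 5 : ℝ) := by
    have hm0 : (0 : ℝ) < m := by exact_mod_cast hm
    have e : (m : ℝ) ^ (3 / 5 : ℝ) = (m : ℝ) ^ (1 / 10 : ℝ) * √(m : ℝ) := by
      rw [Real.sqrt_eq_rpow, ← Real.rpow_add hm0]
      norm_num
    rw [e, ← mul_assoc]
    exact mul_le_mul_of_nonneg_right (hdv m hm) (Real.sqrt_nonneg _)
  have hpow : (m.divisors.card : ℝ) ^ D ≤ (m.divisors.card : ℝ) ^ (2 * D + 1) :=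
    pow_le_pow_right₀ hd1 (by omega)
  refine ⟨?_, ?_, ?_⟩
  · have hterm : ∀ k ∈ m.divisors, |mulf ν k a * mulf β (m / k) a| ≤
        (m.divisors.card : ℝ) ^ (2 * D) * √(m : ℝ) := by
      intro k hk
      have hkm : k ∣ m := Nat.dvd_of_mem_divisors hk
      have hk1 : 1 ≤ k := Nat.pos_of_dvd_of_pos hkm hm
      have hq1 : 1 ≤ m / k := Nat.div_pos (Nat.le_of_dvd hm hkm) hk1
      have hqm : m / k ∣ m := Nat.div_dvd_of_dvd hkm
      have b1 := (h1 ι D β ν hL k a hk1).2
      have b2 := (h1 ι D β ν hL (m / k) a hq1).1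
      have c1 : (k.divisors.card : ℝ) ≤ m.divisors.card := by
        exact_mod_cast Finset.card_le_card (Nat.divisors_subset_of_dvd (by omega) hkm)
      have c2 : ((m / k).divisors.card : ℝ) ≤ m.divisors.card := by
        exact_mod_cast Finset.card_le_card (Nat.divisors_subset_of_dvd (by omega) hqm)
      have hs : √(k : ℝ) * √((m / k : ℕ) : ℝ) = √(m : ℝ) := by
        rw [← Real.sqrt_mul (by positivity)]
        congr 1
        exact_mod_cast Nat.mul_div_cancel' hkm
      rw [abs_mul]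
      calc |mulf ν k a| * |mulf β (m / k) a|
          ≤ ((k.divisors.card : ℝ) ^ D * √(k : ℝ)) *
              (((m / k).divisors.card : ℝ) ^ D * √((m / k : ℕ) : ℝ)) :=
            mul_le_mul b1 b2 (abs_nonneg _) (by positivity)
        _ ≤ ((m.divisors.card : ℝ) ^ D * √(k : ℝ)) *
              ((m.divisors.card : ℝ) ^ D * √((m / k : ℕ) : ℝ)) := by
            gcongr
        _ = (m.divisors.card : ℝ) ^ (2 * D) * √(m : ℝ) := by
            rw [← hs]
            ring
    refine le_trans ?_ hmain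
    unfold dco
    refine (Finset.abs_sum_le_sum_abs _ _).trans ?_
    refine (Finset.sum_le_sum_of_subset_of_nonneg (Finset.filter_subset _ _)
      (fun _ _ _ => abs_nonneg _)).trans ?_
    refine (Finset.sum_le_sum hterm).trans ?_
    rw [Finset.sum_const, nsmul_eq_mul]
    apply le_of_eq
    ring
  · refine ((h1 ι D β ν hL m a hm).1).trans (le_trans ?_ hmain)
    exact mul_le_mul_of_nonneg_right hpow (Real.sqrt_nonneg _)
  · refine ((h1 ι D β ν hL m a hm).2).trans (le_trans ?_ hmain)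
    exact mul_le_mul_of_nonneg_right hpow (Real.sqrt_nonneg _)

end MP7ed9c3.Pz
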