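import Pool.Agent.Lib.MP_7ed9c3_nt.Pz.SpecH
import Pool.Agent.Lib.MP_640417_ag.All.Divisor

/-!
# MP_7ed9c3_nt, part Pz, module DvB: divisor bound
-/

set_option autoImplicit false

namespace MP7ed9c3.Pz

open NumberField IsDedekindDomain MP7ed9c3 MP7ed9c3.Tw MP7ed9c3.Tz

/-- The divisor bound for the powers of the divisor function. -/
theorem tDvB : S_DvB := by
  intro A
  have hA : (0 : ℝ) < 10 * ((A : ℝ) + 1) := by positivity
  obtain ⟨C, hC, hCm⟩ := Pool.Agent.Lib.MP_640417_ag.All.divisor_bound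
    (1 / (10 * ((A : ℝ) + 1))) (by positivity)
  refine ⟨C ^ A, pow_pos hC A, fun m hm => ?_⟩
  have hm1 : (1 : ℝ) ≤ m := by exact_mod_cast hm
  have hm0 : (0 : ℝ) ≤ m := by linarith
  calc (m.divisors.card : ℝ) ^ A ≤ (C * (m : ℝ) ^ (1 / (10 * ((A : ℝ) + 1)))) ^ A :=
        pow_le_pow_left₀ (Nat.cast_nonneg _) (hCm m hm) A
    _ = C ^ A * (m : ℝ) ^ (1 / (10 * ((A : ℝ) + 1)) * A) := by
        rw [mul_pow, ← Real.rpow_natCast ((m : ℝ) ^ (1 / (10 * ((A : ℝ) + 1)))) A,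
          ← Real.rpow_mul hm0]
    _ ≤ C ^ A * (m : ℝ) ^ (1 / 10 : ℝ) := by
        refine mul_le_mul_of_nonneg_left ?_ (pow_pos hC A).le
        refine Real.rpow_le_rpow_of_exponent_le hm1 ?_
        rw [div_mul_eq_mul_div, one_mul, div_le_div_iff₀ hA (by norm_num)]
        nlinarith

end MP7ed9c3.Pz
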