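import Pool.Agent.Lib.MP_7ed9c3_nt.Pz.SpecH
import Pool.Agent.Lib.MP_7ed9c3_nt.N5

/-!
# MP_7ed9c3_nt, part Pz, H: assembly of the local data
-/

set_option autoImplicit false

namespace MP7ed9c3.Pz

open NumberField IsDedekindDomain MP7ed9c3 MP7ed9c3.Tw MP7ed9c3.Tz

theorem tLocF (h1 : S_LdK) (h2 : S_CoK) (h3 : S_EuK) (h4 : S_PsD) (h5 : S_PsC) (h6 : S_PsB) :
    S_LocF := by
  intro K _ _
  refine ⟨2 * Module.finrank ℚ K, beK K, nuK K, h1 K,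
    fun p hp h3p a => (h2 K p hp h3p a).2.2.2.1, ?_⟩
  intro η hη
  obtain ⟨C, hC, hB⟩ := h6 K η hη
  refine ⟨C, hC, fun Y a M hY hA hA' hne hM => ?_⟩
  have hd : dK a ≠ 0 := by
    unfold dK
    refine mul_ne_zero ?_ hne
    norm_num
  have hT : ∀ v : HeightOneSpectrum (𝓞 K), v ∈ (N5.finite_mem hd).toFinset ↔ dK a ∈ v.asIdeal :=
    fun v => by
      rw [Set.Finite.mem_toFinset]
      rfl
  refine ⟨PsiK a M (N5.finite_mem hd).toFinset, h4 K a M _,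
    fun s hs => hB Y a M _ hY hA hA' hne hT s hs, fun s hs => ?_⟩
  rw [h5 K a M _ hT hM s hs, (h3 K a s hs).2]

end MP7ed9c3.Pz
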