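import Pool.Agent.Lib.MP_7ed9c3_nt.Pz.SpecH

/-!
# MP_7ed9c3_nt, part Pz.  Module Mol (the mollifier)
-/

set_option autoImplicit false

namespace MP7ed9c3.Pz

open NumberField IsDedekindDomain MP7ed9c3 MP7ed9c3.Tw MP7ed9c3.Tz

/-- The value of a multiplicative function at `0`. -/
private theorem Mol_mulf_zero {ι : Type} (u : ℕ → ℕ → (ι → ℤ) → ℝ) (a : ι → ℤ) :
    mulf u 0 a = 0 := by
  unfold mulf
  rw [if_neg (by decide)]

private theorem Mol_mco_zero {ι : Type} (ν : ℕ → ℕ → (ι → ℤ) → ℝ) (z X : ℕ) (a : ι → ℤ) :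
    mco ν z X 0 a = 0 := by
  unfold mco
  split_ifs
  · exact Mol_mulf_zero ν a
  · rfl

/-- The coefficients of the mollifier are bounded as those of `ν`. -/
private theorem Mol_mco_le {ι : Type} (ν : ℕ → ℕ → (ι → ℤ) → ℝ) (z X k : ℕ) (a : ι → ℤ) :
    |mco ν z X k a| ≤ |mulf ν k a| := by
  unfold mco
  split_ifs
  · exact le_rfl
  · simp

private theorem Mol_mco_big {ι : Type} (ν : ℕ → ℕ → (ι → ℤ) → ℝ) (z X k : ℕ) (a : ι → ℤ)
    (h : X < k) : mco ν z X k a = 0 := by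
  unfold mco
  rw [if_neg (fun hc => absurd hc.1 (by omega))]

/-- The sum over the shifted indices is an L-series. -/
private theorem Mol_lseries (f : ℕ → ℂ) (s : ℂ) (hf : LSeriesSummable f s) :
    ∑' m : ℕ, f (m + 1) * ((m + 1 : ℕ) : ℂ) ^ (-s) = LSeries f s := by
  have h1 : LSeries f s = LSeries.term f s 0 + ∑' m : ℕ, LSeries.term f s (m + 1) :=
    hf.tsum_eq_zero_add
  rw [h1, LSeries.term_zero, zero_add]
  refine tsum_congr (fun m => ?_)
  rw [LSeries.term_of_ne_zero (Nat.succ_ne_zero m), Complex.cpow_neg, div_eq_mul_inv]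

/-- The dilated coefficient is a convolution. -/
private theorem Mol_dco {ι : Type} (β ν : ℕ → ℕ → (ι → ℤ) → ℝ) (z X m : ℕ) (a : ι → ℤ) :
    dco β ν z X m a = ∑ k ∈ m.divisors, mco ν z X k a * mulf β (m / k) a := by
  unfold dco
  rw [Finset.sum_filter]
  refine Finset.sum_congr rfl (fun k _ => ?_)
  unfold mco
  split_ifs with h
  · rfl
  · rw [zero_mul]

private theorem Mol_conv {ι : Type} (β ν : ℕ → ℕ → (ι → ℤ) → ℝ) (z X m : ℕ) (a : ι → ℤ) :
    LSeries.convolution (fun k => ((mco ν z X k a : ℝ) : ℂ)) (fun k => ((mulf β k a : ℝ) : ℂ)) m =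
      ((dco β ν z X m a : ℝ) : ℂ) := by
  rw [LSeries.convolution_def, Mol_dco]
  have h := Nat.sum_divisorsAntidiagonal (n := m)
    (fun i j => ((mco ν z X i a : ℝ) : ℂ) * ((mulf β j a : ℝ) : ℂ))
  simp only at h ⊢
  rw [h]
  push_cast
  rfl

/-- A finite sum as an L-series. -/
private theorem Mol_fin {ι : Type} (ν : ℕ → ℕ → (ι → ℤ) → ℝ) (z X : ℕ) (a : ι → ℤ) (s : ℂ) :
    LSeries (fun k => ((mco ν z X k a : ℝ) : ℂ)) s =
      ∑ k ∈ Finset.Icc 1 X, ((mco ν z X k a : ℝ) : ℂ) * (k : ℂ) ^ (-s) := by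
  unfold LSeries
  rw [tsum_eq_sum (s := Finset.Icc 1 X)]
  · refine Finset.sum_congr rfl (fun k hk => ?_)
    rw [Finset.mem_Icc] at hk
    rw [LSeries.term_of_ne_zero (by omega), Complex.cpow_neg, div_eq_mul_inv]
  · intro k hk
    rcases Nat.eq_zero_or_pos k with h0 | h0
    · rw [h0, LSeries.term_zero]
    · have hX : X < k := by
        by_contra hc
        exact hk (Finset.mem_Icc.mpr ⟨h0, by omega⟩)
      rw [LSeries.term_of_ne_zero (by omega), Mol_mco_big ν z X k a hX, Complex.ofReal_zero, zero_div]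

theorem tMol (h1 : S_DcB) : S_Mol := by
  unfold S_Mol S_Moll
  intro ι _ D
  obtain ⟨C, hC, h⟩ := h1 D
  refine ⟨C, hC, ?_⟩
  intro β ν hl z X a hX
  refine ⟨fun m hm => (h ι β ν hl z X m a hm).1, ?_⟩
  refine ⟨fun s => ∑ k ∈ Finset.Icc 1 X, ((mco ν z X k a : ℝ) : ℂ) * (k : ℂ) ^ (-s), ?_, ?_, ?_⟩
  · refine Differentiable.fun_sum (fun k hk => ?_)
    rw [Finset.mem_Icc] at hk
    have hk0 : (k : ℂ) ≠ 0 := by exact_mod_cast (by omega : k ≠ 0)
    refine (differentiable_const _).mul ?_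
    intro s
    exact (differentiableAt_id.neg).const_cpow (Or.inl hk0)
  · intro s hs
    have hb : ∀ k ∈ Finset.Icc 1 X, ‖((mco ν z X k a : ℝ) : ℂ) * (k : ℂ) ^ (-s)‖ ≤ C := by
      intro k hk
      rw [Finset.mem_Icc] at hk
      have hk1 : (1 : ℝ) ≤ (k : ℝ) := by exact_mod_cast hk.1
      have hk0 : (0 : ℝ) < (k : ℝ) := by linarith
      rw [norm_mul, Complex.norm_natCast_cpow_of_pos hk.1, Complex.norm_real, Real.norm_eq_abs,
        Complex.neg_re]
      have hA : |mco ν z X k a| ≤ C * (k : ℝ) ^ (3 / 5 : ℝ) :=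
        (Mol_mco_le ν z X k a).trans (h ι β ν hl z X k a hk.1).2.2
      have hB : (k : ℝ) ^ (-s.re) ≤ (k : ℝ) ^ (-(3 / 5) : ℝ) :=
        Real.rpow_le_rpow_of_exponent_le hk1 (by linarith)
      calc |mco ν z X k a| * (k : ℝ) ^ (-s.re)
          ≤ (C * (k : ℝ) ^ (3 / 5 : ℝ)) * (k : ℝ) ^ (-(3 / 5) : ℝ) :=
            mul_le_mul hA hB (Real.rpow_nonneg hk0.le _) (by positivity)
        _ = C := by
            rw [mul_assoc, ← Real.rpow_add hk0]
            norm_num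
    calc ‖∑ k ∈ Finset.Icc 1 X, ((mco ν z X k a : ℝ) : ℂ) * (k : ℂ) ^ (-s)‖
        ≤ ∑ k ∈ Finset.Icc 1 X, ‖((mco ν z X k a : ℝ) : ℂ) * (k : ℂ) ^ (-s)‖ := norm_sum_le _ _
      _ ≤ ∑ _k ∈ Finset.Icc 1 X, C := Finset.sum_le_sum hb
      _ = C * X := by
          rw [Finset.sum_const, Nat.card_Icc, Nat.add_sub_cancel, nsmul_eq_mul, mul_comm]
  · intro s hs
    have hsb : LSeriesSummable (fun k => ((mulf β k a : ℝ) : ℂ)) s := by
      refine LSeriesSummable_of_le_const_mul_rpow (x := 8 / 5) (by rw [hs]; norm_num) ⟨C, ?_⟩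
      intro n hn
      rw [Complex.norm_real, Real.norm_eq_abs]
      have := (h ι β ν hl z X n a (Nat.one_le_iff_ne_zero.mpr hn)).2.1
      refine this.trans (le_of_eq ?_)
      norm_num
    have hst : LSeriesSummable (fun k => ((mco ν z X k a : ℝ) : ℂ)) s := by
      refine LSeriesSummable_of_le_const_mul_rpow (x := 8 / 5) (by rw [hs]; norm_num) ⟨C, ?_⟩
      intro n hn
      rw [Complex.norm_real, Real.norm_eq_abs]
      have := (h ι β ν hl z X n a (Nat.one_le_iff_ne_zero.mpr hn)).2.2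
      refine ((Mol_mco_le ν z X n a).trans this).trans (le_of_eq ?_)
      norm_num
    have hcv : LSeries.convolution (fun k => ((mco ν z X k a : ℝ) : ℂ))
        (fun k => ((mulf β k a : ℝ) : ℂ)) = fun m => ((dco β ν z X m a : ℝ) : ℂ) :=
      funext (fun m => Mol_conv β ν z X m a)
    have hsd : LSeriesSummable (fun m => ((dco β ν z X m a : ℝ) : ℂ)) s := by
      rw [← hcv]
      exact LSeriesSummable.convolution hst hsb
    have h3 := LSeries_convolution' hst hsb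
    rw [hcv] at h3
    rw [Mol_lseries (fun k => ((mulf β k a : ℝ) : ℂ)) s hsb,
      Mol_lseries (fun m => ((dco β ν z X m a : ℝ) : ℂ)) s hsd, h3, Mol_fin, mul_comm]

end MP7ed9c3.Pz
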